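import Pool.Agent.R684.PN.Stm

set_option autoImplicit false

/-!
# The space of cocycles is closed and invariant (piece CLO, MP_f3dc04_al)
-/

namespace Pool.Agent.R928.PNCLO

open Pool.Agent.W649.ZL Pool.Agent.R684.PN
open scoped InnerProductSpace

theorem cont_eval {G S : Type} [Group G] (y : G × S) : Continuous (fun f : EE G S => f y) := by
  have h : (fun f : EE G S => f y) = fun f => ⟪dl y, f⟫_ℂ := by
    funext f
    rw [inner_dl_left]
  rw [h]
  exact continuous_const.inner continuous_id

theorem cont_DD {G S : Type} [Group G] (τ : S → G) (L : List S) (x : G) :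
    Continuous (fun f : EE G S => DD τ L f x) := by
  induction L generalizing x with
  | nil => exact continuous_const
  | cons s L ih => exact (cont_eval (x, s)).add (ih _)

theorem DD_tr {G S : Type} [Group G] (τ : S → G) (k : G) (f : EE G S) (L : List S) (x : G) :
    DD τ L (tr k f) x = DD τ L f (x * k) := by
  induction L generalizing x with
  | nil => rfl
  | cons s L ih =>
    simp only [DD]
    rw [ih, tr_apply, mul_assoc]

theorem t_CLO : S_CLO := by
  intro Γ G S _ _ _ σ q A
  constructor
  · have h : (UU σ q A : Set (EE G S)) =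
        (⋂ (L : List S) (L' : List S) (_ : (L.map σ).prod = (L'.map σ).prod) (x : G),
          {f : EE G S | DD (fun s => q (σ s)) L f x = DD (fun s => q (σ s)) L' f x}) ∩
        ⋂ (L : List S) (_ : L ∈ A) (x : G), {f : EE G S | DD (fun s => q (σ s)) L f x = 0} := by
      ext f
      simp only [SetLike.mem_coe, mem_UU, Set.mem_inter_iff, Set.mem_iInter, Set.mem_ofPred_eq]
    rw [h]
    refine IsClosed.inter ?_ ?_
    · refine isClosed_iInter fun L => isClosed_iInter fun L' => isClosed_iInter fun _ =>
        isClosed_iInter fun x => ?_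
      exact isClosed_eq (cont_DD _ L x) (cont_DD _ L' x)
    · refine isClosed_iInter fun L => isClosed_iInter fun _ => isClosed_iInter fun x => ?_
      exact isClosed_eq (cont_DD _ L x) continuous_const
  · intro k f hf
    rw [mem_UU] at hf ⊢
    refine ⟨fun L L' h x => ?_, fun L h x => ?_⟩
    · rw [DD_tr, DD_tr, hf.1 L L' h]
    · rw [DD_tr, hf.2 L h]

end Pool.Agent.R928.PNCLO
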