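import Mathlib
import Pool.Agent.H552R3.Tsen.Count

/-! Tsen-Lang for systems of equations over `k(x, y)`, `k` algebraically closed. -/

set_option autoImplicit false

namespace Pool.Agent.R928.TL

open MvPolynomial Pool.Agent.H552R3.Tsen

variable {k L : Type*} [Field k] [Field L] [Algebra k L] (x y : L)

/-- the span of the monomials `x ^ i * y ^ j`, `i, j < s` -/
def Q2 (s : ℕ) : Submodule k L := PP (k := k) x s * PP (k := k) y s

theorem Q2_mul (s t : ℕ) : Q2 (k := k) x y s * Q2 x y t ≤ Q2 x y (s + t) := by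
  unfold Q2
  rw [mul_mul_mul_comm]
  exact mul_le_mul' (PP_mul x s t) (PP_mul y s t)

theorem Q2_mono {s t : ℕ} (h : s ≤ t) : Q2 (k := k) x y s ≤ Q2 x y t :=
  mul_le_mul' (PP_mono x h) (PP_mono y h)

theorem Q2_pow (s j : ℕ) : (Q2 (k := k) x y s) ^ j ≤ Q2 x y (j * s + 1) := by
  unfold Q2
  rw [mul_pow]
  exact mul_le_mul' (PP_pow x s j) (PP_pow y s j)

theorem mem_Q2 {s i j : ℕ} (hi : i < s) (hj : j < s) : x ^ i * y ^ j ∈ Q2 (k := k) x y s :=
  Submodule.mul_mem_mul (Submodule.subset_span ⟨i, hi, rfl⟩) (Submodule.subset_span ⟨j, hj, rfl⟩)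

theorem fin_Q2 (s : ℕ) : Module.Finite k (Q2 (k := k) x y s) ∧
    Module.finrank k (Q2 (k := k) x y s) ≤ s * s := by
  classical
  have h : (Q2 (k := k) x y s) =
      Submodule.span k ((Finset.univ : Finset (Fin s × Fin s)).image
        (fun ij => x ^ (ij.1 : ℕ) * y ^ (ij.2 : ℕ)) : Finset L) := by
    unfold Q2 PP
    rw [Submodule.span_mul_span]
    congr 1
    ext z
    simp only [Finset.coe_image, Finset.coe_univ, Set.image_univ, Set.mem_range, Prod.exists]
    constructor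
    · rintro ⟨_, ⟨i, hi, rfl⟩, _, ⟨j, hj, rfl⟩, rfl⟩
      exact ⟨⟨i, hi⟩, ⟨j, hj⟩, rfl⟩
    · rintro ⟨i, j, rfl⟩
      exact ⟨_, ⟨i, i.2, rfl⟩, _, ⟨j, j.2, rfl⟩, rfl⟩
  rw [h]
  constructor
  · exact Module.Finite.span_finset k _
  · refine (finrank_span_finset_le_card _).trans (Finset.card_image_le.trans ?_)
    rw [Finset.card_univ, Fintype.card_prod, Fintype.card_fin]

/-- clearing denominators -/
theorem clear2 (hspan : ∀ z : L, ∃ h : L, h ≠ 0 ∧ ∃ s, h ∈ Q2 (k := k) x y s ∧ h * z ∈ Q2 (k := k) x y s)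
    (Z : Finset L) : ∃ h : L, h ≠ 0 ∧ ∃ δ : ℕ, ∀ z ∈ Submodule.span k (Z : Set L), h * z ∈ Q2 (k := k) x y δ := by
  classical
  have hfin : ∃ h : L, h ≠ 0 ∧ ∃ δ : ℕ, h ∈ Q2 (k := k) x y δ ∧ ∀ z ∈ Z, h * z ∈ Q2 (k := k) x y δ := by
    induction Z using Finset.induction_on with
    | empty =>
      refine ⟨1, one_ne_zero, 1, ?_, by simp⟩
      have := mem_Q2 (k := k) x y (s := 1) (i := 0) (j := 0) one_pos one_pos
      simpa using this
    | insert a Z ha ih =>
      obtain ⟨h1, hh1, δ1, hm1, h1'⟩ := ih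
      obtain ⟨h2, hh2, δ2, hm2, h2'⟩ := hspan a
      refine ⟨h1 * h2, mul_ne_zero hh1 hh2, δ1 + δ2, Q2_mul x y _ _ (Submodule.mul_mem_mul hm1 hm2), ?_⟩
      intro z hz
      rcases Finset.mem_insert.1 hz with rfl | hz
      · rw [mul_assoc]
        exact Q2_mul x y _ _ (Submodule.mul_mem_mul hm1 h2')
      · rw [mul_right_comm]
        exact Q2_mul x y _ _ (Submodule.mul_mem_mul (h1' z hz) hm2)
  obtain ⟨h, hh, δ, -, hz⟩ := hfin
  refine ⟨h, hh, δ, ?_⟩
  intro z hzS
  induction hzS using Submodule.span_induction with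
  | mem z hz' => exact hz z hz'
  | zero => rw [mul_zero]; exact Submodule.zero_mem _
  | add a b _ _ ha hb => rw [mul_add]; exact Submodule.add_mem _ ha hb
  | smul c a _ ha => rw [mul_smul_comm]; exact Submodule.smul_mem _ _ ha

/-- the numerical estimate -/
theorem count_est {J : Type*} [Fintype J] (d : J → ℕ) (c N : ℕ) (h : ∑ j, d j ^ 2 < N) :
    ∃ s : ℕ, ∑ j, (d j * s + c) * (d j * s + c) < N * (s * s) := by
  obtain ⟨s, hs⟩ : ∃ s, s = 2 * c * (∑ j, d j) + c * c * Fintype.card J + 1 := ⟨_, rfl⟩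
  refine ⟨s, ?_⟩
  have e1 : ∑ j, (d j * s + c) * (d j * s + c) =
      (∑ j, d j ^ 2) * (s * s) + 2 * c * (∑ j, d j) * s + c * c * Fintype.card J := by
    have : ∀ j, (d j * s + c) * (d j * s + c) = d j ^ 2 * (s * s) + (2 * c * s) * d j + c * c := by
      intro j; ring
    simp only [this, Finset.sum_add_distrib, ← Finset.sum_mul, ← Finset.mul_sum, Finset.sum_const,
      Finset.card_univ, smul_eq_mul]
    ring
  rw [e1]
  have hs1 : 1 ≤ s := by omega
  have e2 : (∑ j, d j ^ 2) * (s * s) + s * s ≤ N * (s * s) := by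
    calc (∑ j, d j ^ 2) * (s * s) + s * s = ((∑ j, d j ^ 2) + 1) * (s * s) := by ring
      _ ≤ N * (s * s) := Nat.mul_le_mul_right _ h
  have e3 : 2 * c * (∑ j, d j) * s + c * c * Fintype.card J < s * s := by
    have h4 : c * c * Fintype.card J ≤ c * c * Fintype.card J * s := Nat.le_mul_of_pos_right _ hs1
    calc 2 * c * (∑ j, d j) * s + c * c * Fintype.card J ≤
          2 * c * (∑ j, d j) * s + c * c * Fintype.card J * s := by omega
      _ = (2 * c * (∑ j, d j) + c * c * Fintype.card J) * s := by ring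
      _ < s * s := by
        apply Nat.mul_lt_mul_of_pos_right _ hs1
        omega
  omega

/-- **Tsen-Lang** for systems over a field `L` in which every element is a quotient of polynomials in
`x, y` over the algebraically closed field `k`, with `x, y` algebraically independent. -/
theorem exists_zero2 [IsAlgClosed k]
    (hspan : ∀ z : L, ∃ h : L, h ≠ 0 ∧ ∃ s, h ∈ Q2 (k := k) x y s ∧ h * z ∈ Q2 (k := k) x y s)
    (hlin : ∀ (s : ℕ) (p : Fin s × Fin s → k), ∑ ij, algebraMap k L (p ij) * (x ^ (ij.1 : ℕ) * y ^ (ij.2 : ℕ)) = 0 →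
      ∀ ij, p ij = 0)
    {I J : Type*} [Fintype I] [Fintype J] (Ψ : J → MvPolynomial I L) (d : J → ℕ)
    (hdeg : ∀ j, (Ψ j).totalDegree ≤ d j)
    (h0 : ∀ j, eval 0 (Ψ j) = 0) (hcard : ∑ j, d j ^ 2 < Fintype.card I) :
    ∃ a : I → L, a ≠ 0 ∧ ∀ j, eval a (Ψ j) = 0 := by
  classical
  let Z : Finset L := Finset.univ.biUnion fun j => (Ψ j).support.image (fun e => coeff e (Ψ j))
  let Cc : Submodule k L := Submodule.span k (Z : Set L)
  obtain ⟨h, hh, δ, hS⟩ := clear2 x y hspan Z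
  obtain ⟨s, hs⟩ := count_est d (1 + δ) (Fintype.card I) hcard
  let W : J → Submodule k L := fun j => Q2 x y (d j * s + 1 + δ)
  have hW : ∀ j, Module.Finite k (W j) ∧ Module.finrank k (W j) ≤ (d j * s + 1 + δ) * (d j * s + 1 + δ) :=
    fun j => fin_Q2 x y _
  let T := I × (Fin s × Fin s)
  let ℓ : I → MvPolynomial T L := fun q => ∑ ij : Fin s × Fin s, C (x ^ (ij.1 : ℕ) * y ^ (ij.2 : ℕ)) * X (q, ij)
  have hℓ : ∀ q, ℓ q ∈ cS (Q2 (k := k) x y s) := by
    intro q
    exact cS_sum _ _ fun ij _ => cS_mono_X (mem_Q2 x y ij.1.2 ij.2.2) _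
  let Ψ' : J → MvPolynomial T L := fun j => aeval ℓ (Ψ j)
  -- coefficients
  have hcoef : ∀ j, Ψ' j ∈ cS (Cc * Q2 (k := k) x y (d j * s + 1)) := by
    intro j
    have h1 : Ψ' j = ∑ e ∈ (Ψ j).support, C (coeff e (Ψ j)) * ∏ i, ℓ i ^ e i := by
      change aeval ℓ (Ψ j) = _
      rw [aeval_def, eval₂_eq']
      rfl
    rw [h1]
    refine cS_sum _ _ fun e he => cS_mul (cS_C (Submodule.subset_span ?_)) ?_
    · simp only [Z, Finset.coe_biUnion, Finset.mem_coe, Finset.mem_univ, Set.iUnion_true, Set.mem_iUnion]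
      exact ⟨j, Finset.mem_image_of_mem _ he⟩
    · refine cS_mono ?_ (cS_prod Finset.univ ℓ hℓ e)
      have h2 : (∑ i, e i) ≤ d j := by
        refine le_trans ?_ (hdeg j)
        have := le_totalDegree he
        rwa [Finsupp.sum_fintype _ _ (fun _ => rfl)] at this
      refine (Q2_pow x y s _).trans (Q2_mono x y ?_)
      have := Nat.mul_le_mul_right s h2
      omega
  have hmem : ∀ j, ∀ c ∈ (Cc * Q2 (k := k) x y (d j * s + 1)), h * c ∈ W j := by
    intro j c hc
    refine Submodule.mul_induction_on hc ?_ ?_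
    · intro z hz p hp
      rw [← mul_assoc]
      have h2 := Submodule.mul_mem_mul (hS z hz) hp
      refine Q2_mono x y ?_ (Q2_mul x y _ _ h2)
      omega
    · intro a b ha hb
      rw [mul_add]
      exact Submodule.add_mem _ ha hb
  -- coordinates on `W`
  let D : J → ℕ := fun j => Module.finrank k (W j)
  have hφ : ∀ j, ∃ φ : L →ₗ[k] (Fin (D j) → k), ∀ w ∈ W j, φ w = 0 → w = 0 := by
    intro j
    haveI : Module.Finite k (W j) := (hW j).1
    let b := Module.finBasis k (W j)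
    obtain ⟨φ, hφ⟩ := LinearMap.exists_extend (b.equivFun : W j →ₗ[k] (Fin (D j) → k))
    refine ⟨φ, ?_⟩
    intro w hw h1
    have h2 := congrArg (fun g => g ⟨w, hw⟩) (congrArg DFunLike.coe hφ)
    simp only [LinearMap.coe_comp, Function.comp_apply, Submodule.subtype_apply] at h2
    rw [h1] at h2
    have h3 : (⟨w, hw⟩ : W j) = 0 := by
      apply b.equivFun.injective
      rw [map_zero]
      exact h2.symm
    exact congrArg Subtype.val h3
  choose φ hφ0 using hφ
  let P : (Σ j, Fin (D j)) → MvPolynomial T k := fun i =>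
    ∑ τ ∈ (Ψ' i.1).support, monomial τ (φ i.1 (h * coeff τ (Ψ' i.1)) i.2)
  have hexp : ∀ (j : J) (v : T → k), h * eval (fun t => algebraMap k L (v t)) (Ψ' j) =
      ∑ τ ∈ (Ψ' j).support, (∏ t, v t ^ τ t) • (h * coeff τ (Ψ' j)) := by
    intro j v
    rw [eval_eq', Finset.mul_sum]
    refine Finset.sum_congr rfl fun τ _ => ?_
    rw [Algebra.smul_def, map_prod]
    simp only [map_pow]
    ring
  have hPev : ∀ (v : T → k) (j : J) (i : Fin (D j)), eval v (P ⟨j, i⟩) =
      φ j (h * eval (fun t => algebraMap k L (v t)) (Ψ' j)) i := by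
    intro v j i
    have e1 : φ j (∑ τ ∈ (Ψ' j).support, (∏ t, v t ^ τ t) • (h * coeff τ (Ψ' j))) i =
        ∑ τ ∈ (Ψ' j).support, φ j ((∏ t, v t ^ τ t) • (h * coeff τ (Ψ' j))) i := by
      rw [map_sum, Finset.sum_apply]
    rw [hexp, e1]
    simp only [P]
    rw [map_sum]
    refine Finset.sum_congr rfl fun τ _ => ?_
    rw [map_smul, Pi.smul_apply, smul_eq_mul, eval_monomial, Finsupp.prod_fintype _ _ (fun _ => pow_zero _), mul_comm]
  have hev : ∀ (w : T → L) (j : J), eval w (Ψ' j) = eval (fun q => eval w (ℓ q)) (Ψ j) := by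
    intro w j
    have h1 : (aeval w : MvPolynomial T L →ₐ[L] L).comp (aeval ℓ) = aeval (fun q => aeval w (ℓ q)) := by
      apply MvPolynomial.algHom_ext
      intro q
      simp
    have h2 := congrArg (fun g => g (Ψ j)) (congrArg DFunLike.coe h1)
    simp only [AlgHom.coe_comp, Function.comp_apply] at h2
    rw [← MvPolynomial.coe_aeval_eq_eval, ← MvPolynomial.coe_aeval_eq_eval]
    exact h2
  have hP0 : ∀ i, eval 0 (P i) = 0 := by
    rintro ⟨j, i⟩
    rw [hPev, hev]
    have h1 : (fun q => eval (fun t => algebraMap k L ((0 : T → k) t)) (ℓ q)) = 0 := by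
      funext q
      simp [ℓ]
    rw [h1, h0, mul_zero, map_zero]
    rfl
  obtain ⟨v, hv0, hv⟩ := exists_common_zero P hP0 (by
    rw [Fintype.card_sigma, Fintype.card_prod, Fintype.card_prod, Fintype.card_fin]
    refine lt_of_le_of_lt (Finset.sum_le_sum fun j _ => ?_) hs
    rw [Fintype.card_fin, ← Nat.add_assoc]
    exact (hW j).2)
  refine ⟨fun q => eval (fun t => algebraMap k L (v t)) (ℓ q), ?_, ?_⟩
  · intro ha
    apply hv0
    funext t
    obtain ⟨q, ij⟩ := t
    have h1 := congrFun ha q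
    have h2 : eval (fun t => algebraMap k L (v t)) (ℓ q) =
        ∑ ij : Fin s × Fin s, algebraMap k L (v (q, ij)) * (x ^ (ij.1 : ℕ) * y ^ (ij.2 : ℕ)) := by
      simp only [ℓ, map_sum, map_mul, eval_C, eval_X]
      refine Finset.sum_congr rfl fun ij _ => ?_
      ring
    rw [h2] at h1
    exact hlin s (fun ij => v (q, ij)) h1 ij
  · intro j
    rw [← hev]
    have h1 : h * eval (fun t => algebraMap k L (v t)) (Ψ' j) = 0 := by
      apply hφ0 j
      · rw [hexp]
        exact Submodule.sum_mem _ fun τ _ => Submodule.smul_mem _ _ (hmem j _ (hcoef j τ))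
      · funext i
        rw [← hPev, hv]
        rfl
    exact (mul_eq_zero.1 h1).resolve_left hh

end Pool.Agent.R928.TL
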