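import Mathlib
import Pool.Agent.R928.TL2
import Pool.Agent.Helper18.Br.TensorCSA

/-! Division algebras of degree four over fields satisfying Tsen-Lang in dimension two. -/

set_option autoImplicit false
set_option linter.all false

open scoped TensorProduct

namespace Pool.Agent.R928.Cyc4

section newton

/-- four elements of a field of characteristic zero whose first three power sums vanish have the same
fourth power -/
theorem pow_four_eq {E : Type*} [Field E] [CharZero E] (v : Fin 4 → E)
    (h1 : ∑ i, v i = 0) (h2 : ∑ i, v i ^ 2 = 0) (h3 : ∑ i, v i ^ 3 = 0) (i : Fin 4) :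
    v i ^ 4 = - (v 0 * v 1 * v 2 * v 3) := by
  rw [Fin.sum_univ_four] at h1 h2 h3
  have e2 : v 0 * v 1 + v 0 * v 2 + v 0 * v 3 + v 1 * v 2 + v 1 * v 3 + v 2 * v 3 = 0 := by
    have : (2 : E) * (v 0 * v 1 + v 0 * v 2 + v 0 * v 3 + v 1 * v 2 + v 1 * v 3 + v 2 * v 3) = 0 := by
      linear_combination (v 0 + v 1 + v 2 + v 3) * h1 - h2
    rcases mul_eq_zero.1 this with h | h
    · exact absurd h two_ne_zero
    · exact h
  have e3 : v 0 * v 1 * v 2 + v 0 * v 1 * v 3 + v 0 * v 2 * v 3 + v 1 * v 2 * v 3 = 0 := by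
    have : (3 : E) * (v 0 * v 1 * v 2 + v 0 * v 1 * v 3 + v 0 * v 2 * v 3 + v 1 * v 2 * v 3) = 0 := by
      linear_combination h3 - (v 0 ^ 2 + v 1 ^ 2 + v 2 ^ 2 + v 3 ^ 2) * h1 +
        (v 0 + v 1 + v 2 + v 3) * e2
    rcases mul_eq_zero.1 this with h | h
    · exact absurd h three_ne_zero
    · exact h
  fin_cases i
  · change v 0 ^ 4 = _
    linear_combination v 0 ^ 3 * h1 - v 0 ^ 2 * e2 + v 0 * e3
  · change v 1 ^ 4 = _
    linear_combination v 1 ^ 3 * h1 - v 1 ^ 2 * e2 + v 1 * e3
  · change v 2 ^ 4 = _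
    linear_combination v 2 ^ 3 * h1 - v 2 ^ 2 * e2 + v 2 * e3
  · change v 3 ^ 4 = _
    linear_combination v 3 ^ 3 * h1 - v 3 ^ 2 * e2 + v 3 * e3

open Polynomial

/-- a nonzero generator of an extension of degree at most four whose first three powers have trace zero -/
theorem field_four {F K : Type*} [Field F] [CharZero F] [Field K] [Algebra F K] [FiniteDimensional F K]
    (y : K) (hy : y ≠ 0) (hgen : ∀ σ τ : K →ₐ[F] AlgebraicClosure F, σ y = τ y → σ = τ)
    (hm : Module.finrank F K ≤ 4)
    (ht : ∀ j, 1 ≤ j → j ≤ 3 → Algebra.trace F K (y ^ j) = 0) :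
    Module.finrank F K = 4 ∧ ∃ c : F, algebraMap F K c = y ^ 4 := by
  classical
  let E := AlgebraicClosure F
  have hcard : Fintype.card (K →ₐ[F] E) = Module.finrank F K := AlgHom.card F K E
  have htr : ∀ x : K, algebraMap F E (Algebra.trace F K x) = ∑ σ : K →ₐ[F] E, σ x := fun x =>
    trace_eq_sum_embeddings E
  have hsum : ∀ j, 1 ≤ j → j ≤ 3 → ∑ σ : K →ₐ[F] E, (σ y) ^ j = 0 := by
    intro j h1 h2
    have h3 := htr (y ^ j)
    rw [ht j h1 h2, map_zero] at h3
    simpa only [map_pow] using h3.symm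
  have hne : ∀ σ : K →ₐ[F] E, σ y ≠ 0 := fun σ => by
    rw [Ne, map_eq_zero]; exact hy
  have hpos : 0 < Module.finrank F K := Module.finrank_pos
  have h4 : Module.finrank F K = 4 := by
    by_contra hne4
    have hlt : Module.finrank F K ≤ 3 := by omega
    let e := Fintype.equivFinOfCardEq hcard
    let v : Fin (Module.finrank F K) → E := fun i => (e.symm i) y
    have hv : Function.Injective v := fun i j hij => e.symm.injective (hgen _ _ hij)
    have h5 : v = 0 := by
      apply Matrix.eq_zero_of_forall_pow_sum_mul_pow_eq_zero hv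
      intro i
      have h6 := hsum (i + 1) (by omega) (by have := i.2; omega)
      rw [← e.symm.sum_comp] at h6
      rw [← h6]
      refine Finset.sum_congr rfl fun j _ => ?_
      simp only [v]
      rw [pow_succ']
    exact hne (e.symm ⟨0, hpos⟩) (congrFun h5 ⟨0, hpos⟩)
  refine ⟨h4, ?_⟩
  rw [h4] at hcard
  let e := Fintype.equivFinOfCardEq hcard
  let v : Fin 4 → E := fun i => (e.symm i) y
  have hs : ∀ j, 1 ≤ j → j ≤ 3 → ∑ i, v i ^ j = 0 := by
    intro j h1 h2
    rw [← hsum j h1 h2, ← e.symm.sum_comp]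
  have hall := pow_four_eq v (by simpa using hs 1 le_rfl (by omega)) (hs 2 (by omega) (by omega))
    (hs 3 (by omega) le_rfl)
  obtain ⟨c, hc⟩ : ∃ c, c = - (v 0 * v 1 * v 2 * v 3) := ⟨_, rfl⟩
  rw [← hc] at hall
  have hσ : ∀ σ : K →ₐ[F] E, (σ y) ^ 4 = c := by
    intro σ
    have := hall (e σ)
    simpa only [v, Equiv.symm_apply_apply] using this
  have ht4 : algebraMap F E (Algebra.trace F K (y ^ 4)) = 4 * c := by
    rw [htr]
    simp only [map_pow, hσ]
    rw [Finset.sum_const, Finset.card_univ, hcard]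
    simp
  refine ⟨Algebra.trace F K (y ^ 4) / 4, ?_⟩
  have σ0 : K →ₐ[F] E := e.symm 0
  apply σ0.toRingHom.injective
  change σ0 (algebraMap F K _) = σ0 (y ^ 4)
  have h6 : σ0 (y ^ 4) = c := by rw [map_pow, hσ]
  rw [AlgHom.commutes, h6, map_div₀, ht4, map_ofNat]
  exact mul_div_cancel_left₀ c (by norm_num)

end newton

section division

open Polynomial

variable {F D K : Type*} [Field F] [DivisionRing D] [Algebra F D] [Field K] [Algebra F K]

/-- `D` as a vector space over a subfield acting by right multiplication -/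
def rmod (φ : K →ₐ[F] D) : Module K D :=
  Module.compHom D ((φ : K →+* D).toOpposite (fun x y => by
    change φ x * φ y = φ y * φ x
    rw [← map_mul, ← map_mul, mul_comm]))

theorem rmod_smul (φ : K →ₐ[F] D) (y : K) (d : D) :
    letI := rmod φ
    y • d = d * φ y := rfl

theorem trace_right [FiniteDimensional F D] [FiniteDimensional F K] (φ : K →ₐ[F] D) :
    ∃ r : ℕ, 0 < r ∧ r * Module.finrank F K = Module.finrank F D ∧
      ∀ y : K, LinearMap.trace F D (LinearMap.mulRight F (φ y)) = (r : F) * Algebra.trace F K y := by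
  classical
  letI := rmod φ
  haveI : IsScalarTower F K D := ⟨fun a b c => by
    rw [rmod_smul, rmod_smul, map_smul, mul_smul_comm]⟩
  haveI : Module.Finite K D := Module.Finite.of_restrictScalars_finite F K D
  let c := Module.finBasis K D
  let b := Module.finBasis F K
  refine ⟨Module.finrank K D, Module.finrank_pos, ?_, ?_⟩
  · rw [mul_comm]; exact Module.finrank_mul_finrank F K D
  intro y
  let B := b.smulTower c
  rw [LinearMap.trace_eq_matrix_trace F B, Matrix.trace, Fintype.sum_prod_type, Finset.sum_comm]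
  have h1 : ∀ (j : Fin (Module.finrank K D)) (i : Fin (Module.finrank F K)),
      Matrix.diag (LinearMap.toMatrix B B (LinearMap.mulRight F (φ y))) (i, j) =
        Matrix.diag (Algebra.leftMulMatrix b y) i := by
    intro j i
    rw [Matrix.diag_apply, Matrix.diag_apply, LinearMap.toMatrix_apply, Algebra.leftMulMatrix_eq_repr_mul]
    simp only [B]
    rw [Module.Basis.smulTower_apply, Module.Basis.smulTower_repr]
    simp only [LinearMap.mulRight_apply]
    have h2 : (b i • c j) * φ y = (y * b i) • c j := by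
      rw [rmod_smul, rmod_smul, map_mul, mul_assoc]
      rw [← map_mul, ← map_mul, mul_comm y]
    rw [h2, map_smul, Finsupp.smul_apply, Module.Basis.repr_self, Finsupp.single_eq_same, smul_eq_mul, mul_one]
  simp only [h1]
  rw [Finset.sum_const, Finset.card_univ, Fintype.card_fin, nsmul_eq_mul]
  rw [Algebra.trace_eq_matrix_trace b]
  rfl

/-- the degree of a subfield of a central division algebra -/
theorem finrank_sq_le [FiniteDimensional F D] [FiniteDimensional F K] [Algebra.IsCentral F D] (φ : K →ₐ[F] D) :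
    Module.finrank F K ^ 2 ≤ Module.finrank F D := by
  classical
  letI := rmod φ
  haveI : IsScalarTower F K D := ⟨fun a b c => by
    rw [rmod_smul, rmod_smul, map_smul, mul_smul_comm]⟩
  haveI : SMulCommClass D K D := ⟨fun a b c => by
    rw [rmod_smul, rmod_smul, smul_eq_mul, smul_eq_mul, mul_assoc]⟩
  haveI : Module.Finite K D := Module.Finite.of_restrictScalars_finite F K D
  let f : K ⊗[F] D →ₐ[K] Module.End K D :=
    Algebra.TensorProduct.lift (Algebra.ofId K (Module.End K D)) (Algebra.lsmul F K D)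
      (fun a d => Algebra.commutes a _)
  have hsimple : IsSimpleRing (D ⊗[F] K) := Pool.Agent.Helper18.Br.isSimple_tensor
  let g : D ⊗[F] K →+* Module.End K D :=
    (f : K ⊗[F] D →+* Module.End K D).comp ((Algebra.TensorProduct.comm F D K : D ⊗[F] K ≃ₐ[F] K ⊗[F] D) : D ⊗[F] K →+* K ⊗[F] D)
  have hnt : Nontrivial (Module.End K D) := inferInstance
  have hg : Function.Injective g := g.injective
  have hf : Function.Injective f := by
    intro a b hab
    have h1 : g ((Algebra.TensorProduct.comm F D K).symm a) = g ((Algebra.TensorProduct.comm F D K).symm b) := by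
      simpa [g] using hab
    exact (Algebra.TensorProduct.comm F D K).symm.injective (hg h1)
  have h1 := LinearMap.finrank_le_finrank_of_injective (f := f.toLinearMap) hf
  rw [Module.finrank_baseChange, Module.finrank_linearMap] at h1
  have h2 : Module.finrank F K * Module.finrank K D = Module.finrank F D := Module.finrank_mul_finrank F K D
  have h3 : 0 < Module.finrank K D := Module.finrank_pos
  have h4 : Module.finrank F K ≤ Module.finrank K D := by
    rw [← h2] at h1
    exact Nat.le_of_mul_le_mul_right h1 h3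
  rw [← h2, sq]
  exact Nat.mul_le_mul_left _ h4

open MvPolynomial in
theorem totalDegree_matrix_pow {R I J : Type*} [CommRing R] [Fintype I] [DecidableEq I]
    (M : Matrix I I (MvPolynomial J R)) (hM : ∀ i j, (M i j).totalDegree ≤ 1) (m : ℕ) :
    ∀ i j, ((M ^ m) i j).totalDegree ≤ m := by
  induction m with
  | zero =>
    intro i j
    rw [pow_zero, Matrix.one_apply]
    split_ifs
    · rw [totalDegree_one]
    · rw [totalDegree_zero]
  | succ m ih =>
    intro i j
    rw [pow_succ, Matrix.mul_apply]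
    refine totalDegree_finsetSum_le fun l _ => (totalDegree_mul _ _).trans ?_
    exact Nat.add_le_add (ih i l) (hM l j)

/-- a nonzero element `z` of `D` such that right multiplication by `z, z², z³` has trace zero -/
theorem exists_elt {F D : Type*} [Field F] [DivisionRing D] [Algebra F D] (hD : Module.finrank F D = 16)
    (hTL : ∀ Ψ : Fin 3 → MvPolynomial (Fin 16) F, (∀ j, (Ψ j).totalDegree ≤ (j : ℕ) + 1) →
      (∀ j, MvPolynomial.eval 0 (Ψ j) = 0) → ∃ a : Fin 16 → F, a ≠ 0 ∧ ∀ j, MvPolynomial.eval a (Ψ j) = 0) :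
    ∃ z : D, z ≠ 0 ∧ ∀ j, 1 ≤ j → j ≤ 3 → LinearMap.trace F D (LinearMap.mulRight F (z ^ j)) = 0 := by
  classical
  have hfd : FiniteDimensional F D := Module.finite_of_finrank_pos (by omega)
  let b : Module.Basis (Fin 16) F D := Module.finBasisOfFinrankEq F D hD
  let M : Matrix (Fin 16) (Fin 16) (MvPolynomial (Fin 16) F) := fun p q =>
    ∑ i, MvPolynomial.C (LinearMap.toMatrix b b (LinearMap.mulRight F (b i)) p q) * MvPolynomial.X i
  have hM1 : ∀ p q, (M p q).totalDegree ≤ 1 := by
    intro p q
    refine MvPolynomial.totalDegree_finsetSum_le fun i _ => ?_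
    refine (MvPolynomial.totalDegree_mul _ _).trans ?_
    rw [MvPolynomial.totalDegree_C, zero_add]
    exact (MvPolynomial.totalDegree_X i).le
  have hMev : ∀ a : Fin 16 → F, M.map (MvPolynomial.eval a) =
      LinearMap.toMatrix b b (LinearMap.mulRight F (∑ i, a i • b i)) := by
    intro a
    ext p q
    rw [Matrix.map_apply]
    simp only [M, map_sum, map_mul, MvPolynomial.eval_C, MvPolynomial.eval_X]
    rw [LinearMap.toMatrix_apply, LinearMap.mulRight_apply, Finset.mul_sum, map_sum, Finset.sum_apply']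
    refine Finset.sum_congr rfl fun i _ => ?_
    rw [LinearMap.toMatrix_apply, LinearMap.mulRight_apply, mul_smul_comm, map_smul, Finsupp.smul_apply,
      smul_eq_mul, mul_comm]
  let Ψ : Fin 3 → MvPolynomial (Fin 16) F := fun j => (M ^ ((j : ℕ) + 1)).trace
  have hev : ∀ (a : Fin 16 → F) (j : Fin 3), MvPolynomial.eval a (Ψ j) =
      LinearMap.trace F D (LinearMap.mulRight F ((∑ i, a i • b i) ^ ((j : ℕ) + 1))) := by
    intro a j
    simp only [Ψ]
    rw [LinearMap.trace_eq_matrix_trace F b]
    have h1 : LinearMap.mulRight F ((∑ i, a i • b i) ^ ((j : ℕ) + 1)) =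
        (LinearMap.mulRight F (∑ i, a i • b i)) ^ ((j : ℕ) + 1) := by
      rw [LinearMap.pow_mulRight]
    rw [h1]
    have h2 : LinearMap.toMatrix b b ((LinearMap.mulRight F (∑ i, a i • b i)) ^ ((j : ℕ) + 1)) =
        (LinearMap.toMatrix b b (LinearMap.mulRight F (∑ i, a i • b i))) ^ ((j : ℕ) + 1) :=
      (LinearMap.toMatrix_pow b _ _).symm
    rw [h2, ← hMev]
    have h3 : (MvPolynomial.eval a) (M ^ ((j : ℕ) + 1)).trace = ((M ^ ((j : ℕ) + 1)).map (MvPolynomial.eval a)).trace := by
      simp only [Matrix.trace, map_sum, Matrix.diag_apply, Matrix.map_apply]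
    rw [h3, Matrix.map_pow]
  obtain ⟨a, ha0, ha⟩ := hTL Ψ (by
    intro j
    simp only [Ψ, Matrix.trace]
    refine MvPolynomial.totalDegree_finsetSum_le fun i _ => ?_
    exact totalDegree_matrix_pow M hM1 _ i i) (by
    intro j
    rw [hev]
    have h1 : (∑ i, (0 : Fin 16 → F) i • b i) = 0 := by simp
    rw [h1, zero_pow (by omega)]
    have h2 : LinearMap.mulRight F (0 : D) = 0 := by
      ext d
      simp
    rw [h2, map_zero])
  refine ⟨∑ i, a i • b i, ?_, ?_⟩
  · intro h
    apply ha0
    funext i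
    have h1 := Fintype.linearIndependent_iff.1 b.linearIndependent a h i
    exact h1
  · intro j h1 h2
    have h3 := ha ⟨j - 1, by omega⟩
    rw [hev] at h3
    simpa [Nat.sub_add_cancel h1] using h3

/-- **Main theorem** for a field satisfying Tsen-Lang in dimension two. -/
theorem cyclic_of_TL {F D : Type*} [Field F] [CharZero F] [DivisionRing D] [Algebra F D]
    [Algebra.IsCentral F D] (hD : Module.finrank F D = 16) (ζ : F) (hζ : IsPrimitiveRoot ζ 4)
    (hTL : ∀ Ψ : Fin 3 → MvPolynomial (Fin 16) F, (∀ j, (Ψ j).totalDegree ≤ (j : ℕ) + 1) →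
      (∀ j, MvPolynomial.eval 0 (Ψ j) = 0) → ∃ a : Fin 16 → F, a ≠ 0 ∧ ∀ j, MvPolynomial.eval a (Ψ j) = 0) :
    ∃ z : D, Irreducible (minpoly F z) ∧ (minpoly F z).natDegree = 4 ∧
      ∃ f : F, minpoly F z = Polynomial.X ^ 4 - Polynomial.C f := by
  classical
  have hfd : FiniteDimensional F D := Module.finite_of_finrank_pos (by omega)
  obtain ⟨z, hz, htr⟩ := exists_elt hD hTL
  have hint : IsIntegral F z := Algebra.IsIntegral.isIntegral z
  have hirr : Irreducible (minpoly F z) := minpoly.irreducible hint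
  haveI : Fact (Irreducible (minpoly F z)) := ⟨hirr⟩
  let K := AdjoinRoot (minpoly F z)
  let y : K := AdjoinRoot.root (minpoly F z)
  let φ : K →ₐ[F] D := Ideal.Quotient.liftₐ (Ideal.span {minpoly F z}) (Polynomial.aeval z) (by
    intro a ha
    rw [Ideal.mem_span_singleton] at ha
    obtain ⟨q, rfl⟩ := ha
    rw [map_mul, minpoly.aeval, zero_mul])
  have hφ : φ y = z := by
    change Polynomial.aeval z (Polynomial.X : Polynomial F) = z
    rw [Polynomial.aeval_X]
  haveI : FiniteDimensional F K := (AdjoinRoot.powerBasis hirr.ne_zero).finite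
  have hdim := finrank_sq_le φ
  rw [hD] at hdim
  have hm : Module.finrank F K ≤ 4 := by
    by_contra h
    have h5 : 5 ≤ Module.finrank F K := by omega
    have := Nat.pow_le_pow_left h5 2
    omega
  obtain ⟨r, hr0, hr, hrt⟩ := trace_right φ
  have hy : y ≠ 0 := by
    intro h
    rw [h, map_zero] at hφ
    exact hz hφ.symm
  have hgen : ∀ σ τ : K →ₐ[F] AlgebraicClosure F, σ y = τ y → σ = τ := by
    intro σ τ h
    exact AdjoinRoot.algHom_ext h
  have ht : ∀ j, 1 ≤ j → j ≤ 3 → Algebra.trace F K (y ^ j) = 0 := by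
    intro j h1 h2
    have h3 := hrt (y ^ j)
    rw [map_pow, hφ, htr j h1 h2] at h3
    have h4 : (r : F) ≠ 0 := by exact_mod_cast hr0.ne'
    rcases mul_eq_zero.1 h3.symm with h5 | h5
    · exact absurd h5 h4
    · exact h5
  obtain ⟨h4, c, hc⟩ := field_four y hy hgen hm ht
  have hdeg : (minpoly F z).natDegree = 4 := by
    rw [← h4]
    have := (AdjoinRoot.powerBasis hirr.ne_zero).finrank
    rw [this, AdjoinRoot.powerBasis_dim]
  refine ⟨z, hirr, hdeg, c, ?_⟩
  have h5 : minpoly F z ∣ Polynomial.X ^ 4 - Polynomial.C c := by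
    apply minpoly.dvd
    rw [map_sub, map_pow, Polynomial.aeval_X, Polynomial.aeval_C]
    have h6 := congrArg φ hc
    rw [AlgHom.commutes, map_pow, hφ] at h6
    rw [h6, sub_self]
  symm
  refine (Polynomial.eq_of_monic_of_dvd_of_natDegree_le (minpoly.monic hint)
    (Polynomial.monic_X_pow_sub_C c (by omega)) h5 ?_).symm ▸ ?_
  · rw [Polynomial.natDegree_X_pow_sub_C, hdeg]
  · rfl

end division

end Pool.Agent.R928.Cyc4
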