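import Pool.Agent.R955.FD.Defs

/-!
# From the line to the circle (piece RTT of project FD, MP_0880e2_an)
-/

set_option autoImplicit false

open MeasureTheory Set Filter Topology
open scoped ENNReal FourierTransform
open Pool.Agent.R955.FD

namespace Pool.Agent.R928.FDRTT

universe u

theorem t_RTT (h1 : S_KER) (h2 : S_NRM.{u}) (h3 : S_DRT.{u}) (h4 : S_LQ) : S_RTT.{u} := by
  intro X _ _ _ p q hp hq
  obtain ⟨φ, hφ1, hφ2, hφ3, C, hC, hφ4⟩ := h1
  obtain ⟨C', hC', hN⟩ := h2 X (φ 0) C hφ3 hφ4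
  obtain ⟨l1, -, l3, -, -⟩ := h4 q hq
  have hA : ∀ (I : Set ℤ) (c : ℤ →₀ X), nT p (DT I c) ≤ 2 * nR p (fun t => φ 0 t • DT I c t) := by
    intro I c
    obtain ⟨c', hc'⟩ : ∃ c' : ℤ →₀ X, DT I c = trig c' := ⟨_, rfl⟩
    rw [hc']
    exact (hN p c' hp).1
  have hB : ∀ (I : Set ℤ) (c : ℤ →₀ X), nR p (fun t => φ 0 t • DT I c t) ≤
      ENNReal.ofReal C' * nT p (DT I c) := by
    intro I c
    obtain ⟨c', hc'⟩ : ∃ c' : ℤ →₀ X, DT I c = trig c' := ⟨_, rfl⟩
    rw [hc']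
    exact (hN p c' hp).2
  have hmul : ∀ (V : ℝ) (a : ℝ≥0∞), 0 < V → 2 * (ENNReal.ofReal V * (ENNReal.ofReal C' * a)) =
      ENNReal.ofReal (2 * V * C') * a := by
    intro V a hV
    rw [ENNReal.ofReal_mul (by positivity), ENNReal.ofReal_mul (by norm_num),
      show ENNReal.ofReal 2 = 2 by norm_num]
    ring
  constructor
  · rintro ⟨U, hU, hUR⟩
    refine ⟨2 * U * C', by positivity, fun J hJ c => ?_⟩
    obtain ⟨J', hJ', hJ''⟩ := h3 X φ hφ1 hφ2 J hJ
    obtain ⟨hSc, hD⟩ := hJ'' c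
    have e1 := hUR J' hJ' _ hSc
    simp only [hD] at e1
    have e2 : lq q (fun i => nR p (fun t => φ 0 t • DT (J i) c t)) ≤
        ENNReal.ofReal C' * lq q (fun i => nT p (DT (J i) c)) := by
      rw [← l3]
      exact l1 _ _ fun i => hB (J i) c
    calc nT p (trig c) ≤ 2 * nR p (fun t => φ 0 t • trig c t) := (hN p c hp).1
      _ ≤ 2 * (ENNReal.ofReal U * (ENNReal.ofReal C' * lq q (fun i => nT p (DT (J i) c)))) := by
          gcongr
          exact e1.trans (by gcongr)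
      _ = _ := hmul U _ hU
  · rintro ⟨L, hL, hLR⟩
    refine ⟨2 * L * C', by positivity, fun J hJ c => ?_⟩
    obtain ⟨J', hJ', hJ''⟩ := h3 X φ hφ1 hφ2 J hJ
    obtain ⟨hSc, hD⟩ := hJ'' c
    have e1 := hLR J' hJ' _ hSc
    simp only [hD] at e1
    calc lq q (fun i => nT p (DT (J i) c))
        ≤ lq q (fun i => 2 * nR p (fun t => φ 0 t • DT (J i) c t)) := l1 _ _ fun i => hA (J i) c
      _ = 2 * lq q (fun i => nR p (fun t => φ 0 t • DT (J i) c t)) := l3 _ _
      _ ≤ 2 * (ENNReal.ofReal L * (ENNReal.ofReal C' * nT p (trig c))) := by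
          gcongr
          refine e1.trans ?_
          gcongr
          exact (hN p c hp).2
      _ = _ := hmul L _ hL

end Pool.Agent.R928.FDRTT
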