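import Mathlib
import Pool.Agent.R928.TL2

/-! Tsen-Lang for systems of equations over the rational function field in two variables. -/

set_option autoImplicit false
set_option linter.all false

namespace Pool.Agent.R928.TL

open MvPolynomial Pool.Agent.H552R3.Tsen

variable (k : Type*) [Field k]

theorem aeval_mem_Q2 {L : Type*} [Field L] [Algebra k L] (x y : L) (p : MvPolynomial (Fin 2) k) :
    ∃ s, aeval ![x, y] p ∈ Q2 (k := k) x y s := by
  induction p using MvPolynomial.induction_on' with
  | monomial u a =>
    refine ⟨u 0 + u 1 + 1, ?_⟩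
    rw [aeval_monomial, ← Algebra.smul_def]
    refine Submodule.smul_mem _ _ ?_
    rw [Finsupp.prod_fintype _ _ (fun _ => pow_zero _), Fin.prod_univ_two]
    exact mem_Q2 x y (by omega) (by omega)
  | add p q hp hq =>
    obtain ⟨s, hs⟩ := hp
    obtain ⟨t, ht⟩ := hq
    refine ⟨max s t, ?_⟩
    rw [map_add]
    exact Submodule.add_mem _ (Q2_mono x y (le_max_left _ _) hs) (Q2_mono x y (le_max_right _ _) ht)

/-- **Tsen-Lang** over `k(s, t)`, `k` algebraically closed: a system of polynomial equations without constant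
terms, of degrees at most `d j`, in more than `∑ (d j)²` variables has a nontrivial solution. -/
theorem exists_zero_frac [IsAlgClosed k] {I J : Type*} [Fintype I] [Fintype J]
    (Ψ : J → MvPolynomial I (FractionRing (MvPolynomial (Fin 2) k))) (d : J → ℕ)
    (hdeg : ∀ j, (Ψ j).totalDegree ≤ d j)
    (h0 : ∀ j, eval 0 (Ψ j) = 0) (hcard : ∑ j, d j ^ 2 < Fintype.card I) :
    ∃ a : I → FractionRing (MvPolynomial (Fin 2) k), a ≠ 0 ∧ ∀ j, eval a (Ψ j) = 0 := by
  classical
  let R := MvPolynomial (Fin 2) k
  let L := FractionRing R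
  let x : L := algebraMap R L (X 0)
  let y : L := algebraMap R L (X 1)
  have hae : ∀ p : R, aeval ![x, y] p = algebraMap R L p := by
    intro p
    have h : (aeval ![x, y] : R →ₐ[k] L) = IsScalarTower.toAlgHom k R L := by
      apply MvPolynomial.algHom_ext
      intro i
      fin_cases i
      · simp [x]
        rfl
      · simp [y]
        rfl
    exact congrArg (fun f => f p) (congrArg DFunLike.coe h)
  have hinj : Function.Injective (algebraMap R L) := IsFractionRing.injective R L
  refine exists_zero2 (k := k) (L := L) x y ?_ ?_ Ψ d hdeg h0 hcard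
  · intro z
    obtain ⟨a, b, hb, rfl⟩ := IsFractionRing.div_surjective (A := R) z
    have hb0 : b ≠ 0 := nonZeroDivisors.ne_zero hb
    have hb1 : algebraMap R L b ≠ 0 := by
      intro h
      exact hb0 (hinj (by rw [h, map_zero]))
    obtain ⟨s, hs⟩ := aeval_mem_Q2 k x y a
    obtain ⟨t, ht⟩ := aeval_mem_Q2 k x y b
    rw [hae] at hs ht
    refine ⟨algebraMap R L b, hb1, max s t, Q2_mono x y (le_max_right _ _) ht, ?_⟩
    rw [mul_div_cancel₀ _ hb1]
    exact Q2_mono x y (le_max_left _ _) hs
  · intro s p hp ij
    let P : R := ∑ ij : Fin s × Fin s, C (p ij) * (X 0 ^ (ij.1 : ℕ) * X 1 ^ (ij.2 : ℕ))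
    have h1 : algebraMap R L P = 0 := by
      rw [← hp]
      simp only [P, map_sum, map_mul, map_pow]
      refine Finset.sum_congr rfl fun ij _ => ?_
      rfl
    have h2 : P = 0 := hinj (by rw [h1, map_zero])
    have hX : ∀ i j : ℕ, (X 0 ^ i * X 1 ^ j : R) = monomial (Finsupp.single 0 i + Finsupp.single 1 j) 1 := by
      intro i j
      rw [X_pow_eq_monomial, X_pow_eq_monomial, monomial_mul, one_mul]
    have h3 : coeff (Finsupp.single 0 (ij.1 : ℕ) + Finsupp.single 1 (ij.2 : ℕ)) P = p ij := by
      change coeff _ (∑ ij : Fin s × Fin s, C (p ij) * (X 0 ^ (ij.1 : ℕ) * X 1 ^ (ij.2 : ℕ))) = _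
      rw [coeff_sum, Finset.sum_eq_single ij]
      · rw [hX, coeff_C_mul, coeff_monomial, if_pos rfl, mul_one]
      · intro kl _ hne
        rw [hX, coeff_C_mul, coeff_monomial, if_neg, mul_zero]
        intro h
        apply hne
        have h4 := congrArg (fun f => f 0) h
        have h5 := congrArg (fun f => f 1) h
        simp at h4 h5
        exact Prod.ext (Fin.ext h4) (Fin.ext h5)
      · intro h
        exact absurd (Finset.mem_univ _) h
    rw [← h3, h2, coeff_zero]

end Pool.Agent.R928.TL
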