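import Mathlib

/-!
# The Grassmannian `Gr(2, n)`: line bundles, the tautological subbundle, Frobenius push-forward

We describe the Grassmannian `X = Gr(2, n)` of two-dimensional subspaces of `V = kⁿ` over an arbitrary
field `k` as the quotient of the scheme `Y` of `n × 2` matrices `x` of rank two by the action of the
group scheme `GL₂` by right multiplication, the point of `X` given by `x` being the column space of `x`.
The projection `π : Y → X` is a `GL₂`-torsor.  For a polynomial `g ≠ 0` in the entries of `x` with
`g(xT) = det(T)^d g(x)`, `d ≥ 1`, the open set `D₊(g)` of `X` is affine with preimage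
`Spec k[x][1/g]` in `Y`, and the sets `D₊(g)` form a basis of the topology of `X = Proj` of the Plücker
algebra.  The sections over `D₊(g)` of the bundles considered here are:

* of the Plücker line bundle power `O(m)`: the functions `f` in `k[x][1/g]` with
  `f(xT) = det(T)^m f(x)`;
* of `V ⊗ O(m)`: the `n`-tuples of such functions;
* of `R ⊗ O(m)`, `R` the tautological subbundle: those `n`-tuples `f` which are of the form
  `f(x) = x h(x)` with `h` a pair of functions in `k[x][1/g]`, that is, whose value at `x` lies in the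
  column space of `x`.

All these sections are considered inside the field of fractions of `k[x]`, so that the restriction maps
between such open sets are the inclusions.
-/

set_option autoImplicit false

namespace Pool.Agent.R928.Gr

open MvPolynomial

variable (k : Type*) [Field k] (n : ℕ)

/-- The polynomial functions on the space of `n × 2` matrices `x = (x_{a i})`. -/
abbrev MatPoly := MvPolynomial (Fin n × Fin 2) k

/-- The polynomial functions of a pair `(x, T)`, `x` an `n × 2` matrix and `T` a `2 × 2` matrix. -/
abbrev PairPoly := MvPolynomial ((Fin n × Fin 2) ⊕ (Fin 2 × Fin 2)) k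

/-- The field of rational functions on the space of `n × 2` matrices. -/
abbrev RatFun := FractionRing (MatPoly k n)

variable {k n}

/-- The function `f(xT)` of the pair `(x, T)`. -/
noncomputable def act : MatPoly k n →ₐ[k] PairPoly k n :=
  aeval fun ai => ∑ j : Fin 2, X (Sum.inl (ai.1, j)) * X (Sum.inr (j, ai.2))

/-- The function `f(x)` of the pair `(x, T)`. -/
noncomputable def pull : MatPoly k n →ₐ[k] PairPoly k n := rename Sum.inl

/-- The function `det T` of the pair `(x, T)`. -/
noncomputable def detT : PairPoly k n :=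
  X (Sum.inr (0, 0)) * X (Sum.inr (1, 1)) - X (Sum.inr (0, 1)) * X (Sum.inr (1, 0))

/-- `f(xT) = det(T)^w f(x)`. -/
def IsSemi (w : ℕ) (f : MatPoly k n) : Prop := act f = detT ^ w * pull f

/-- The pair `(g, d)` defines the open set `D₊(g)` of the Grassmannian. -/
def IsBasic (g : MatPoly k n) (d : ℕ) : Prop := 1 ≤ d ∧ g ≠ 0 ∧ IsSemi d g

/-- The functions in `k[x][1/g]`, as elements of the field of fractions. -/
def Reg (g : MatPoly k n) : Set (RatFun k n) :=
  {f | ∃ (s : ℕ) (N : MatPoly k n), f = algebraMap _ (RatFun k n) N / algebraMap _ (RatFun k n) g ^ s}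

/-- The sections of `O(m)` over `D₊(g)`, where `g(xT) = det(T)^d g(x)`: the quotients `N / g^s` with
`N(xT) = det(T)^w N(x)` and `w - s d = m`. -/
def OSec (m : ℤ) (g : MatPoly k n) (d : ℕ) : Set (RatFun k n) :=
  {f | ∃ (s w : ℕ) (N : MatPoly k n), (w : ℤ) = m + s * d ∧ IsSemi w N ∧
    f = algebraMap _ (RatFun k n) N / algebraMap _ (RatFun k n) g ^ s}

/-- The sections of `V ⊗ O(m)` over `D₊(g)`. -/
def VSec (m : ℤ) (g : MatPoly k n) (d : ℕ) : Set (Fin n → RatFun k n) :=
  {f | ∀ a, f a ∈ OSec m g d}

/-- The matrix entry `x_{a i}` as a rational function. -/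
noncomputable def xx (a : Fin n) (i : Fin 2) : RatFun k n := algebraMap (MatPoly k n) (RatFun k n) (X (a, i))

/-- The sections of `R ⊗ O(m)` over `D₊(g)`, `R` the tautological subbundle of `V ⊗ O`. -/
def RSec (m : ℤ) (g : MatPoly k n) (d : ℕ) : Set (Fin n → RatFun k n) :=
  {f | f ∈ VSec m g d ∧ ∃ h : Fin 2 → RatFun k n, (∀ i, h i ∈ Reg g) ∧ ∀ a, f a = ∑ i, xx a i * h i}

/-- The short exact sequence obtained by applying `F^e_*` to
`0 → R ⊗ O(m) → V ⊗ O(m) → Q ⊗ O(m) → 0` on `Gr(2, n)` splits as a sequence of `O_X`-modules: there is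
an `O_X`-linear retraction `r` of the inclusion of `F^e_*(R ⊗ O(m))` into `F^e_*(V ⊗ O(m))`.

It is given by maps `r g` on the sections over the basic open sets `D₊(g)`, with values in the sections
of `R ⊗ O(m)`, equal to the identity on these, additive, linear over the structure sheaf acting through
the `p^e`-th power map, and compatible with the restrictions from `D₊(g)` to `D₊(g g')`. -/
def FrobeniusPushforwardSplits (p : ℕ) (k : Type*) [Field k] (n : ℕ) (m : ℤ) (e : ℕ) : Prop :=
  ∃ r : MatPoly k n → (Fin n → RatFun k n) → (Fin n → RatFun k n),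
    ∀ (g : MatPoly k n) (d : ℕ), IsBasic g d →
      (∀ f ∈ VSec m g d, r g f ∈ RSec m g d) ∧
      (∀ f ∈ RSec m g d, r g f = f) ∧
      (∀ f ∈ VSec m g d, ∀ f' ∈ VSec m g d, r g (f + f') = r g f + r g f') ∧
      (∀ c ∈ OSec 0 g d, ∀ f ∈ VSec m g d, r g (c ^ p ^ e • f) = c ^ p ^ e • r g f) ∧
      (∀ (g' : MatPoly k n) (d' : ℕ), IsBasic g' d' → ∀ f ∈ VSec m g d, r (g * g') f = r g f)

end Pool.Agent.R928.Gr
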