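import Mathlib
import Pool.Agent.R928.GrDefs

/-! The divergence operator splits the Frobenius push-forward of the tautological sequence. -/

set_option autoImplicit false
set_option linter.all false

open TensorProduct

namespace Pool.Agent.R928.Gr

open MvPolynomial

section frac

/-- Derivations extend to the field of fractions. -/
theorem exists_der_frac {k B : Type*} [Field k] [CommRing B] [IsDomain B] [Algebra k B]
    (E : Derivation k B B) : ∃ E' : Derivation k (FractionRing B) (FractionRing B),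
      ∀ b, E' (algebraMap B (FractionRing B) b) = algebraMap B (FractionRing B) (E b) := by
  let L := FractionRing B
  have hfe : Algebra.FormallyEtale B L :=
    Algebra.FormallyEtale.of_isLocalization (nonZeroDivisors B)
  let l0 : Ω[B⁄k] →ₗ[B] L := (Algebra.linearMap B L) ∘ₗ E.liftKaehlerDifferential
  let l : L ⊗[B] Ω[B⁄k] →ₗ[L] L := LinearMap.liftBaseChange L l0
  let e := KaehlerDifferential.tensorKaehlerEquivOfFormallyEtale k B L
  refine ⟨(l ∘ₗ e.symm.toLinearMap).compDer (KaehlerDifferential.D k L), fun c => ?_⟩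
  change l (e.symm (KaehlerDifferential.D k L (algebraMap B L c))) = _
  rw [KaehlerDifferential.tensorKaehlerEquivOfFormallyEtale_symm_D_algebraMap,
    LinearMap.liftBaseChange_tmul, one_smul]
  change algebraMap B L (E.liftKaehlerDifferential (KaehlerDifferential.D k B c)) = _
  rw [Derivation.liftKaehlerDifferential_comp_D]

end frac

variable {k : Type*} [Field k] {n : ℕ}

section poly

theorem act_X (a : Fin n) (i : Fin 2) : act (X (a, i) : MatPoly k n) =
    ∑ j : Fin 2, X (Sum.inl (a, j)) * X (Sum.inr (j, i)) := by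
  simp [act]

theorem pull_X (a : Fin n) (i : Fin 2) : pull (X (a, i) : MatPoly k n) = X (Sum.inl (a, i)) := by
  simp [pull]

/-- chain rule in `x` -/
theorem pderiv_act_inl (a : Fin n) (j : Fin 2) (N : MatPoly k n) :
    pderiv (Sum.inl (a, j)) (act N) = ∑ i : Fin 2, X (Sum.inr (j, i)) * act (pderiv (a, i) N) := by
  classical
  induction N using MvPolynomial.induction_on with
  | C c => simp
  | add p q hp hq =>
    simp only [map_add, mul_add, Finset.sum_add_distrib]
    rw [hp, hq]
  | mul_X p bi hp =>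
    obtain ⟨b, i'⟩ := bi
    have h2 : ∀ i, act (pderiv (a, i) (X (b, i') : MatPoly k n)) = if b = a ∧ i' = i then 1 else 0 := by
      intro i
      rw [pderiv_X, Pi.single_apply]
      by_cases h : b = a ∧ i' = i
      · rw [if_pos h, if_pos (by rw [h.1, h.2]), map_one]
      · rw [if_neg h, if_neg, map_zero]
        intro h'
        exact h ⟨(Prod.ext_iff.1 h').1, (Prod.ext_iff.1 h').2⟩
    have h3 : pderiv (Sum.inl (a, j)) (act (X (b, i') : MatPoly k n)) =
        if b = a then X (Sum.inr (j, i')) else 0 := by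
      rw [act_X, Fin.sum_univ_two]
      by_cases h : b = a
      · subst h
        fin_cases j <;> fin_cases i' <;>
          simp [Derivation.leibniz, pderiv_X, Pi.single_apply]
      · simp [Derivation.leibniz, pderiv_X, Pi.single_apply, h]
    rw [map_mul, Derivation.leibniz, smul_eq_mul, smul_eq_mul, hp, h3]
    simp only [Derivation.leibniz, smul_eq_mul, map_add, map_mul, h2, mul_add, Finset.sum_add_distrib]
    by_cases h : b = a
    · simp only [h, true_and, if_true]
      simp only [Fin.sum_univ_two]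
      fin_cases i' <;> simp <;> ring
    · simp only [h, false_and, if_false, mul_zero, Finset.sum_const_zero, zero_add]
      simp only [Fin.sum_univ_two]
      ring

/-- chain rule in `T` -/
theorem pderiv_act_inr (l i : Fin 2) (N : MatPoly k n) :
    pderiv (Sum.inr (l, i)) (act N) = ∑ a : Fin n, X (Sum.inl (a, l)) * act (pderiv (a, i) N) := by
  classical
  induction N using MvPolynomial.induction_on with
  | C c => simp
  | add p q hp hq =>
    simp only [map_add, mul_add, Finset.sum_add_distrib]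
    rw [hp, hq]
  | mul_X p bi hp =>
    obtain ⟨b, i'⟩ := bi
    have h1 : act (pderiv (b, i) (X (b, i') : MatPoly k n)) = if i' = i then 1 else 0 := by
      rw [pderiv_X, Pi.single_apply]
      by_cases h : i' = i
      · simp [h]
      · simp [h]
    have h2 : ∀ a, act (pderiv (a, i) (X (b, i') : MatPoly k n)) = if a = b then (if i' = i then 1 else 0) else 0 := by
      intro a
      by_cases h : a = b
      · subst h; rw [if_pos rfl, h1]
      · rw [if_neg h, pderiv_X, Pi.single_apply, if_neg, map_zero]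
        intro h'
        exact h (Prod.ext_iff.1 h').1.symm
    have h3 : pderiv (Sum.inr (l, i)) (act (X (b, i') : MatPoly k n)) =
        if i' = i then X (Sum.inl (b, l)) else 0 := by
      rw [act_X, Fin.sum_univ_two]
      fin_cases l <;> fin_cases i <;> fin_cases i' <;>
        simp [Derivation.leibniz, pderiv_X, Pi.single_apply]
    have h4 : ∑ a : Fin n, X (Sum.inl (a, l)) * act (p * pderiv (a, i) (X (b, i') : MatPoly k n)) =
        act p * (if i' = i then X (Sum.inl (b, l)) else 0) := by
      simp only [map_mul, h2]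
      rw [Finset.sum_eq_single b]
      · rw [if_pos rfl]
        split_ifs <;> ring
      · intro a _ hab
        rw [if_neg hab]; ring
      · intro h
        exact absurd (Finset.mem_univ _) h
    rw [map_mul, Derivation.leibniz, smul_eq_mul, smul_eq_mul, hp, h3]
    simp only [Derivation.leibniz, smul_eq_mul, map_add, mul_add, Finset.sum_add_distrib]
    rw [h4]
    congr 1
    rw [Finset.mul_sum]
    refine Finset.sum_congr rfl fun a _ => ?_
    rw [map_mul]; ring

theorem pderiv_pull (a : Fin n) (j : Fin 2) (N : MatPoly k n) :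
    pderiv (Sum.inl (a, j)) (pull N) = pull (pderiv (a, j) N) := by
  unfold pull
  exact pderiv_rename Sum.inl_injective _ _

theorem pderiv_inl_detT (a : Fin n) (j : Fin 2) : pderiv (Sum.inl (a, j)) (detT : PairPoly k n) = 0 := by
  simp [detT, Derivation.leibniz, pderiv_X, Pi.single_apply]

theorem IsSemi.mul {w w' : ℕ} {f f' : MatPoly k n} (h : IsSemi w f) (h' : IsSemi w' f') :
    IsSemi (w + w') (f * f') := by
  unfold IsSemi at *
  rw [map_mul, map_mul, h, h']; ring

theorem IsSemi.add {w : ℕ} {f f' : MatPoly k n} (h : IsSemi w f) (h' : IsSemi w f') :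
    IsSemi w (f + f') := by
  unfold IsSemi at *
  rw [map_add, map_add, h, h']; ring

theorem IsSemi.sub {w : ℕ} {f f' : MatPoly k n} (h : IsSemi w f) (h' : IsSemi w f') :
    IsSemi w (f - f') := by
  unfold IsSemi at *
  rw [map_sub, map_sub, h, h']; ring

theorem IsSemi.one : IsSemi 0 (1 : MatPoly k n) := by
  unfold IsSemi
  simp

theorem IsSemi.C (c : k) : IsSemi 0 (C c : MatPoly k n) := by
  unfold IsSemi
  simp [act, pull]

theorem IsSemi.zero (w : ℕ) : IsSemi w (0 : MatPoly k n) := by
  unfold IsSemi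
  simp

theorem IsSemi.pow {w : ℕ} {f : MatPoly k n} (h : IsSemi w f) (s : ℕ) : IsSemi (s * w) (f ^ s) := by
  unfold IsSemi at *
  rw [map_pow, map_pow, h, mul_pow, ← pow_mul]
  ring

/-- the left action of `gl_n` -/
noncomputable def eP (b a : Fin n) (N : MatPoly k n) : MatPoly k n := ∑ i : Fin 2, X (b, i) * pderiv (a, i) N

theorem IsSemi.eP {w : ℕ} {f : MatPoly k n} (h : IsSemi w f) (b a : Fin n) : IsSemi w (eP b a f) := by
  have h1 : ∀ j : Fin 2, ∑ i : Fin 2, X (Sum.inr (j, i)) * act (pderiv (a, i) f) =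
      detT ^ w * pull (pderiv (a, j) f) := by
    intro j
    rw [← pderiv_act_inl, ← pderiv_pull, show act f = detT ^ w * pull f from h]
    rw [Derivation.leibniz, Derivation.leibniz_pow, pderiv_inl_detT]
    simp
  unfold IsSemi Gr.eP
  simp only [map_sum, map_mul, map_add, act_X, pull_X, Fin.sum_univ_two] at h1 ⊢
  linear_combination X (Sum.inl (b, 0)) * h1 0 + X (Sum.inl (b, 1)) * h1 1

/-- the specialisation `T = 1` -/
noncomputable def sp : PairPoly k n →ₐ[k] MatPoly k n :=
  aeval (Sum.elim X fun ji => if ji.1 = ji.2 then 1 else 0)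

theorem sp_act (N : MatPoly k n) : sp (act N) = N := by
  have : (sp (k := k) (n := n)).comp act = AlgHom.id k _ := by
    apply MvPolynomial.algHom_ext
    rintro ⟨a, i⟩
    rw [AlgHom.comp_apply, act_X, Fin.sum_univ_two]
    fin_cases i <;> simp [sp]
  exact DFunLike.congr_fun this N

theorem sp_pull (N : MatPoly k n) : sp (pull N) = N := by
  have : (sp (k := k) (n := n)).comp pull = AlgHom.id k _ := by
    apply MvPolynomial.algHom_ext
    rintro ⟨a, i⟩
    rw [AlgHom.comp_apply, pull_X]
    simp [sp]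
  exact DFunLike.congr_fun this N

theorem sp_detT : sp (detT : PairPoly k n) = 1 := by
  simp [sp, detT]

theorem sp_pderiv_detT (l i : Fin 2) : sp (pderiv (Sum.inr (l, i)) (detT : PairPoly k n)) = if l = i then 1 else 0 := by
  fin_cases l <;> fin_cases i <;> simp [sp, detT, Derivation.leibniz, pderiv_X, Pi.single_apply]

theorem pderiv_inr_pull (l i : Fin 2) (N : MatPoly k n) : pderiv (Sum.inr (l, i)) (pull N) = 0 := by
  induction N using MvPolynomial.induction_on with
  | C c => simp [pull]
  | add p q hp hq => rw [map_add, map_add, hp, hq, add_zero]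
  | mul_X p bi hp =>
    obtain ⟨b, i'⟩ := bi
    rw [map_mul, pull_X, Derivation.leibniz, hp, pderiv_X, Pi.single_apply]
    simp

/-- Euler's identities -/
theorem IsSemi.euler {w : ℕ} {N : MatPoly k n} (h : IsSemi w N) (l i : Fin 2) :
    ∑ a : Fin n, X (a, l) * pderiv (a, i) N = if l = i then (w : MatPoly k n) * N else 0 := by
  have h1 := pderiv_act_inr l i N
  rw [show act N = detT ^ w * pull N from h, Derivation.leibniz, Derivation.leibniz_pow, pderiv_inr_pull] at h1
  have h2 := congrArg sp h1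
  simp only [smul_zero, zero_add, smul_eq_mul, map_mul, map_sum, sp_act, map_pow, sp_detT, one_pow,
    map_nsmul, sp_pull, sp_pderiv_detT] at h2
  have h3 : ∀ a : Fin n, sp (X (Sum.inl (a, l)) : PairPoly k n) = X (a, l) := by
    intro a
    simp [sp]
  simp only [h3] at h2
  rw [← h2]
  rw [map_add, map_mul, map_mul, map_nsmul, map_mul, map_pow, sp_detT, sp_pull, sp_pderiv_detT]
  by_cases hli : l = i
  · simp [hli, mul_comm, sp_detT]
  · simp [hli]

end poly

section rat

variable (k n) in
/-- the extensions of the partial derivatives -/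
theorem exists_der : ∃ D : Fin n × Fin 2 → Derivation k (RatFun k n) (RatFun k n), ∀ ai N,
    D ai (algebraMap (MatPoly k n) (RatFun k n) N) = algebraMap (MatPoly k n) (RatFun k n) (pderiv ai N) := by
  choose D hD using fun ai : Fin n × Fin 2 => exists_der_frac (k := k) (pderiv ai : Derivation k (MatPoly k n) (MatPoly k n))
  exact ⟨D, hD⟩

noncomputable def Dr (ai : Fin n × Fin 2) : Derivation k (RatFun k n) (RatFun k n) := (exists_der k n).choose ai

theorem Dr_apply (ai : Fin n × Fin 2) (N : MatPoly k n) : Dr ai (algebraMap (MatPoly k n) (RatFun k n) N) =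
    algebraMap (MatPoly k n) (RatFun k n) (pderiv ai N) := (exists_der k n).choose_spec ai N

/-- the action of `gl_n` -/
noncomputable def EL (b a : Fin n) : Derivation k (RatFun k n) (RatFun k n) := ∑ i : Fin 2, (xx b i : RatFun k n) • Dr (a, i)

/-- the action of `gl_2` -/
noncomputable def ER (l i : Fin 2) : Derivation k (RatFun k n) (RatFun k n) := ∑ a : Fin n, (xx a l : RatFun k n) • Dr (a, i)

theorem sum_apply' {ι : Type*} (s : Finset ι) (D : ι → Derivation k (RatFun k n) (RatFun k n)) (f : RatFun k n) :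
    (∑ i ∈ s, D i) f = ∑ i ∈ s, D i f := by
  classical
  induction s using Finset.induction_on with
  | empty => simp
  | insert a s ha ih => rw [Finset.sum_insert ha, Finset.sum_insert ha, Derivation.add_apply, ih]

theorem EL_def (b a : Fin n) (f : RatFun k n) : EL b a f = ∑ i : Fin 2, xx b i * Dr (a, i) f := by
  rw [EL, sum_apply']
  rfl

theorem ER_def (l i : Fin 2) (f : RatFun k n) : ER l i f = ∑ a : Fin n, xx a l * Dr (a, i) f := by
  rw [ER, sum_apply']
  rfl

theorem EL_apply (b a : Fin n) (N : MatPoly k n) : EL b a (algebraMap (MatPoly k n) (RatFun k n) N) =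
    algebraMap (MatPoly k n) (RatFun k n) (eP b a N) := by
  rw [EL_def, eP, map_sum]
  refine Finset.sum_congr rfl fun i _ => ?_
  rw [Dr_apply, xx, map_mul]

theorem ER_apply {w : ℕ} {N : MatPoly k n} (h : IsSemi w N) (l i : Fin 2) :
    ER l i (algebraMap (MatPoly k n) (RatFun k n) N) = if l = i then (w : RatFun k n) * algebraMap (MatPoly k n) (RatFun k n) N else 0 := by
  have h1 := congrArg (algebraMap (MatPoly k n) (RatFun k n)) (h.euler l i)
  rw [ER_def]
  rw [map_sum] at h1
  simp only [Dr_apply, xx]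
  simp only [map_mul] at h1
  rw [h1]
  split_ifs <;> simp

/-- a derivation applied to a quotient -/
theorem der_quot (E : Derivation k (RatFun k n) (RatFun k n)) (A B : RatFun k n) (hB : B ≠ 0) (s : ℕ) :
    E (A / B ^ s) = (B * E A - s * A * E B) / B ^ (s + 1) := by
  rw [Derivation.leibniz_div, Derivation.leibniz_pow]
  simp only [smul_eq_mul, nsmul_eq_mul]
  rcases s with _ | s
  · simp
    field_simp
  · field_simp
    push_cast
    ring


theorem OSec.add {m : ℤ} {g : MatPoly k n} {d : ℕ} (hg : IsBasic g d) {f f' : RatFun k n}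
    (h : f ∈ OSec m g d) (h' : f' ∈ OSec m g d) : f + f' ∈ OSec m g d := by
  obtain ⟨s, w, N, hw, hN, rfl⟩ := h
  obtain ⟨s', w', N', hw', hN', rfl⟩ := h'
  have hg0 : algebraMap (MatPoly k n) (RatFun k n) g ≠ 0 := by
    rw [Ne, FaithfulSMul.algebraMap_eq_zero_iff]; exact hg.2.1
  refine ⟨s + s', w + s' * d, N * g ^ s' + N' * g ^ s, ?_, ?_, ?_⟩
  · push_cast; rw [hw]; ring
  · refine (hN.mul (hg.2.2.pow s')).add ?_
    have h1 := hN'.mul (hg.2.2.pow s)
    have h2 : w + s' * d = w' + s * d := by
      zify; rw [hw, hw']; ring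
    rw [h2]; exact h1
  · rw [map_add, map_mul, map_mul, map_pow, map_pow]
    field_simp
    ring

theorem OSec.zero {m : ℤ} {g : MatPoly k n} {d : ℕ} (hg : IsBasic g d) : (0 : RatFun k n) ∈ OSec m g d := by
  refine ⟨m.natAbs, (m + m.natAbs * d).toNat, 0, ?_, IsSemi.zero _, by simp⟩
  rw [Int.toNat_of_nonneg]
  have h1 : (m.natAbs : ℤ) * 1 ≤ m.natAbs * d := by
    have : (1 : ℤ) ≤ d := by exact_mod_cast hg.1
    exact mul_le_mul_of_nonneg_left this (by positivity)
  have h2 : -m ≤ (m.natAbs : ℤ) := by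
    rw [← Int.abs_eq_natAbs]; exact neg_le_abs m
  linarith

theorem OSec.smul {m : ℤ} {g : MatPoly k n} {d : ℕ} (c : k) {f : RatFun k n}
    (h : f ∈ OSec m g d) : c • f ∈ OSec m g d := by
  obtain ⟨s, w, N, hw, hN, rfl⟩ := h
  refine ⟨s, w, C c * N, hw, ?_, ?_⟩
  · have := (IsSemi.C (n := n) c).mul hN
    rwa [zero_add] at this
  · rw [Algebra.smul_def, map_mul, mul_div_assoc]
    congr 1

theorem OSec.sum {m : ℤ} {g : MatPoly k n} {d : ℕ} (hg : IsBasic g d) {ι : Type*} (s : Finset ι)
    (f : ι → RatFun k n) (h : ∀ i ∈ s, f i ∈ OSec m g d) : ∑ i ∈ s, f i ∈ OSec m g d := by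
  classical
  induction s using Finset.induction_on with
  | empty => simpa using OSec.zero hg
  | insert a s ha ih =>
    rw [Finset.sum_insert ha]
    exact OSec.add hg (h a (Finset.mem_insert_self a s)) (ih fun i hi => h i (Finset.mem_insert_of_mem hi))

theorem OSec.EL {m : ℤ} {g : MatPoly k n} {d : ℕ} (hg : IsBasic g d) {f : RatFun k n}
    (h : f ∈ OSec m g d) (b a : Fin n) : Gr.EL b a f ∈ OSec m g d := by
  obtain ⟨s, w, N, hw, hN, rfl⟩ := h
  have hg0 : algebraMap (MatPoly k n) (RatFun k n) g ≠ 0 := by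
    rw [Ne, FaithfulSMul.algebraMap_eq_zero_iff]; exact hg.2.1
  refine ⟨s + 1, w + d, g * eP b a N - C (s : k) * (N * eP b a g), ?_, ?_, ?_⟩
  · push_cast; rw [hw]; ring
  · refine IsSemi.sub ?_ ?_
    · have := hg.2.2.mul (hN.eP b a)
      rwa [add_comm d w] at this
    · have := (IsSemi.C (n := n) (s : k)).mul (hN.mul (hg.2.2.eP b a))
      rwa [zero_add] at this
  · rw [der_quot _ _ _ hg0, EL_apply, EL_apply, map_sub, map_mul, map_mul, map_mul]
    congr 1
    rw [show (C (s : k) : MatPoly k n) = (s : MatPoly k n) by simp]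
    rw [map_natCast]
    ring

theorem OSec.ER {m : ℤ} {g : MatPoly k n} {d : ℕ} (hg : IsBasic g d) {f : RatFun k n}
    (h : f ∈ OSec m g d) (l i : Fin 2) : Gr.ER l i f = if l = i then (m : RatFun k n) * f else 0 := by
  obtain ⟨s, w, N, hw, hN, rfl⟩ := h
  have hg0 : algebraMap (MatPoly k n) (RatFun k n) g ≠ 0 := by
    rw [Ne, FaithfulSMul.algebraMap_eq_zero_iff]; exact hg.2.1
  rw [der_quot _ _ _ hg0, ER_apply hN, ER_apply hg.2.2]
  by_cases hli : l = i
  · simp only [hli, if_true]
    have : (w : RatFun k n) = (m : RatFun k n) + s * d := by exact_mod_cast congrArg (Int.cast (R := RatFun k n)) hw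
    rw [this]
    field_simp
    ring
  · simp only [hli, if_false]
    simp

theorem Reg.add {g : MatPoly k n} (hg0 : g ≠ 0) {f f' : RatFun k n} (h : f ∈ Reg g) (h' : f' ∈ Reg g) :
    f + f' ∈ Reg g := by
  have hg0 : algebraMap (MatPoly k n) (RatFun k n) g ≠ 0 := by
    rw [Ne, FaithfulSMul.algebraMap_eq_zero_iff]; exact hg0
  obtain ⟨s, N, rfl⟩ := h
  obtain ⟨s', N', rfl⟩ := h'
  refine ⟨s + s', N * g ^ s' + N' * g ^ s, ?_⟩
  rw [map_add, map_mul, map_mul, map_pow, map_pow]
  field_simp
  ring

theorem Reg.zero {g : MatPoly k n} : (0 : RatFun k n) ∈ Reg g := ⟨0, 0, by simp⟩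

theorem Reg.smul {g : MatPoly k n} (c : k) {f : RatFun k n} (h : f ∈ Reg g) : c • f ∈ Reg g := by
  obtain ⟨s, N, rfl⟩ := h
  refine ⟨s, C c * N, ?_⟩
  rw [Algebra.smul_def, map_mul, mul_div_assoc]
  congr 1

theorem Reg.sum {g : MatPoly k n} (hg : g ≠ 0) {ι : Type*} (s : Finset ι)
    (f : ι → RatFun k n) (h : ∀ i ∈ s, f i ∈ Reg g) : ∑ i ∈ s, f i ∈ Reg g := by
  classical
  induction s using Finset.induction_on with
  | empty => simpa using Reg.zero
  | insert a s ha ih =>
    rw [Finset.sum_insert ha]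
    exact Reg.add hg (h a (Finset.mem_insert_self a s)) (ih fun i hi => h i (Finset.mem_insert_of_mem hi))

theorem Reg.der {g : MatPoly k n} (hg : g ≠ 0) {f : RatFun k n} (h : f ∈ Reg g) (ai : Fin n × Fin 2) :
    Dr ai f ∈ Reg g := by
  have hg0 : algebraMap (MatPoly k n) (RatFun k n) g ≠ 0 := by
    rw [Ne, FaithfulSMul.algebraMap_eq_zero_iff]; exact hg
  obtain ⟨s, N, rfl⟩ := h
  have h1 : algebraMap (MatPoly k n) (RatFun k n) (g * pderiv ai N - (s : MatPoly k n) * (N * pderiv ai g)) =
      algebraMap (MatPoly k n) (RatFun k n) g * algebraMap (MatPoly k n) (RatFun k n) (pderiv ai N) -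
      s * algebraMap (MatPoly k n) (RatFun k n) N * algebraMap (MatPoly k n) (RatFun k n) (pderiv ai g) := by
    rw [map_sub, map_mul, map_mul, map_mul, map_natCast, mul_assoc]
  refine ⟨s + 1, g * pderiv ai N - (s : MatPoly k n) * (N * pderiv ai g), ?_⟩
  rw [h1, der_quot _ _ _ hg0, Dr_apply, Dr_apply]

theorem OSec.reg {m : ℤ} {g : MatPoly k n} {d : ℕ} {f : RatFun k n} (h : f ∈ OSec m g d) : f ∈ Reg g := by
  obtain ⟨s, w, N, hw, hN, rfl⟩ := h
  exact ⟨s, N, rfl⟩

theorem Dr_xx (a b : Fin n) (i j : Fin 2) : Dr (a, i) (xx b j : RatFun k n) = if a = b ∧ i = j then 1 else 0 := by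
  rw [xx, Dr_apply, pderiv_X, Pi.single_apply]
  by_cases h : a = b ∧ i = j
  · rw [if_pos h, if_pos (by rw [h.1, h.2]), map_one]
  · rw [if_neg h, if_neg, map_zero]
    intro h'
    exact h ⟨(Prod.ext_iff.1 h').1.symm, (Prod.ext_iff.1 h').2.symm⟩

theorem ER_xx (l i j : Fin 2) (b : Fin n) : ER l i (xx b j : RatFun k n) = if i = j then xx b l else 0 := by
  rw [ER_def]
  simp only [Dr_xx]
  rw [Finset.sum_eq_single b]
  · simp
  · intro a _ hab
    simp [hab]
  · intro h; exact absurd (Finset.mem_univ _) h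

theorem inj_xx {a b : Fin n} (hab : a ≠ b) (u : Fin 2 → RatFun k n)
    (h : ∀ c, ∑ i, xx c i * u i = 0) : ∀ i, u i = 0 := by
  have hdet : (xx a 0 * xx b 1 - xx a 1 * xx b 0 : RatFun k n) ≠ 0 := by
    have h1 : (xx a 0 * xx b 1 - xx a 1 * xx b 0 : RatFun k n) =
        algebraMap (MatPoly k n) (RatFun k n) (X (a, 0) * X (b, 1) - X (a, 1) * X (b, 0)) := by
      simp [xx]
    rw [h1, Ne, FaithfulSMul.algebraMap_eq_zero_iff]
    intro h0
    have h2 := congrArg (MvPolynomial.eval (fun ci : Fin n × Fin 2 => if ci = (a, 0) ∨ ci = (b, 1) then (1 : k) else 0)) h0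
    simp [hab] at h2
  have ha := h a
  have hb := h b
  rw [Fin.sum_univ_two] at ha hb
  have e0 : (xx a 0 * xx b 1 - xx a 1 * xx b 0 : RatFun k n) * u 0 = 0 := by
    linear_combination xx b 1 * ha - xx a 1 * hb
  have e1 : (xx a 0 * xx b 1 - xx a 1 * xx b 0 : RatFun k n) * u 1 = 0 := by
    linear_combination xx a 0 * hb - xx b 0 * ha
  intro i
  fin_cases i
  · exact (mul_eq_zero.1 e0).resolve_left hdet
  · exact (mul_eq_zero.1 e1).resolve_left hdet

/-- the divergence operator -/
noncomputable def dv (f : Fin n → RatFun k n) (i : Fin 2) : RatFun k n := ∑ a, Dr (a, i) (f a)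

/-- the retraction -/
noncomputable def retr (t : k) (f : Fin n → RatFun k n) : Fin n → RatFun k n :=
  fun b => t⁻¹ • ∑ a, EL b a (f a)

theorem retr_eq (t : k) (f : Fin n → RatFun k n) (b : Fin n) :
    retr t f b = ∑ i, xx b i * (t⁻¹ • dv f i) := by
  unfold retr dv
  simp only [EL_def]
  rw [Finset.sum_comm, Finset.smul_sum]
  refine Finset.sum_congr rfl fun i _ => ?_
  rw [← Finset.mul_sum, mul_smul_comm]

theorem retr_mem {m : ℤ} {g : MatPoly k n} {d : ℕ} (hg : IsBasic g d) (t : k) {f : Fin n → RatFun k n}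
    (hf : f ∈ VSec m g d) : retr t f ∈ RSec m g d := by
  refine ⟨fun b => OSec.smul _ (OSec.sum hg _ _ fun a _ => OSec.EL hg (hf a) b a), ?_⟩
  refine ⟨fun i => t⁻¹ • dv f i, fun i => Reg.smul _ (Reg.sum hg.2.1 _ _ fun a _ => Reg.der hg.2.1 (OSec.reg (hf a)) _), ?_⟩
  intro a
  exact retr_eq t f a

theorem dv_R (hn : 2 ≤ n) {m : ℤ} {g : MatPoly k n} {d : ℕ} (hg : IsBasic g d) {f : Fin n → RatFun k n}
    (hf : f ∈ VSec m g d) {h : Fin 2 → RatFun k n} (hh : ∀ a, f a = ∑ i, xx a i * h i) (i : Fin 2) :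
    dv f i = ((n : RatFun k n) + m - 2) * h i := by
  have key : ∀ l i j : Fin 2, ER l i (h j) = (if l = i then (m : RatFun k n) * h j else 0) -
      (if j = l then h i else 0) := by
    intro l i
    have h1 : ∀ a, ∑ j, xx a j * (ER l i (h j) + (if j = l then h i else 0) -
        (if l = i then (m : RatFun k n) * h j else 0)) = 0 := by
      intro a
      have h2 := OSec.ER hg (hf a) l i
      rw [hh a, map_sum] at h2
      simp only [Derivation.leibniz, smul_eq_mul, ER_xx] at h2
      simp only [mul_sub, mul_add, Finset.sum_sub_distrib, Finset.sum_add_distrib, mul_ite, mul_zero,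
        Finset.sum_ite_eq, Finset.sum_ite_eq', Finset.mem_univ, if_true] at h2 ⊢
      by_cases hli : l = i
      · simp only [hli, if_true] at h2 ⊢
        rw [Finset.mul_sum] at h2
        have h3 : ∑ x : Fin 2, xx a x * ((m : RatFun k n) * h x) = ∑ x : Fin 2, (m : RatFun k n) * (xx a x * h x) := by
          refine Finset.sum_congr rfl fun x _ => by ring
        rw [h3, ← h2]
        ring
      · simp only [hli, if_false, Finset.sum_const_zero, sub_zero] at h2 ⊢
        rw [← h2]
        ring
    have hab : (⟨0, by omega⟩ : Fin n) ≠ ⟨1, by omega⟩ := by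
      intro h
      simpa using congrArg Fin.val h
    have h4 := inj_xx hab _ h1
    intro j
    have := h4 j
    linear_combination this
  unfold dv
  have h5 : ∀ a, Dr (a, i) (f a) = ∑ j, xx a j * Dr (a, i) (h j) + h i := by
    intro a
    rw [hh a, map_sum]
    simp only [Derivation.leibniz, smul_eq_mul, Dr_xx, true_and, Finset.sum_add_distrib, mul_ite, mul_one, mul_zero,
      Finset.sum_ite_eq, Finset.mem_univ, if_true]
  simp only [h5]
  rw [Finset.sum_add_distrib, Finset.sum_comm]
  have h6 : ∀ j, ∑ a, xx a j * Dr (a, i) (h j) = ER j i (h j) := fun j => (ER_def j i (h j)).symm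
  simp only [h6, key, Finset.sum_sub_distrib, Finset.sum_ite_eq', Finset.mem_univ, if_true, Finset.sum_const,
    Finset.card_univ, Fintype.card_fin, nsmul_eq_mul]
  push_cast
  ring

theorem retr_id (hn : 2 ≤ n) {m : ℤ} {g : MatPoly k n} {d : ℕ} (hg : IsBasic g d) {t : k}
    (ht : t = (n : k) + m - 2) (ht0 : t ≠ 0) {f : Fin n → RatFun k n} (hf : f ∈ RSec m g d) : retr t f = f := by
  obtain ⟨hf, h, -, hh⟩ := hf
  funext b
  rw [retr_eq, hh b]
  refine Finset.sum_congr rfl fun i _ => ?_
  rw [dv_R hn hg hf hh i, Algebra.smul_def, ← mul_assoc (algebraMap k (RatFun k n) t⁻¹)]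
  have h1 : algebraMap k (RatFun k n) t⁻¹ * ((n : RatFun k n) + m - 2) = 1 := by
    have : ((n : RatFun k n) + m - 2) = algebraMap k (RatFun k n) t := by
      rw [ht, map_sub, map_add, map_natCast, map_intCast]
      congr 1
      exact (map_ofNat (algebraMap k (RatFun k n)) 2).symm
    rw [this, ← map_mul, inv_mul_cancel₀ ht0, map_one]
  rw [h1, one_mul]

theorem retr_add (t : k) (f f' : Fin n → RatFun k n) : retr t (f + f') = retr t f + retr t f' := by
  funext b
  simp only [retr, Pi.add_apply, map_add, Finset.sum_add_distrib, smul_add]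

theorem retr_frob (p : ℕ) [CharP k p] (e : ℕ) (he : 1 ≤ e) (t : k) (c : RatFun k n)
    (f : Fin n → RatFun k n) : retr t (c ^ p ^ e • f) = c ^ p ^ e • retr t f := by
  have hp : ((p ^ e : ℕ) : RatFun k n) = 0 := by
    have : ((p : ℕ) : RatFun k n) = 0 := by
      have h1 : algebraMap k (RatFun k n) (p : k) = 0 := by rw [CharP.cast_eq_zero, map_zero]
      rwa [map_natCast] at h1
    push_cast
    rw [this, zero_pow (by omega)]
  funext b
  simp only [retr, Pi.smul_apply, smul_eq_mul]
  rw [mul_smul_comm, Finset.mul_sum]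
  congr 1
  refine Finset.sum_congr rfl fun a _ => ?_
  rw [Derivation.leibniz, Derivation.leibniz_pow, nsmul_eq_mul, hp]
  simp

/-- The divergence operator splits the Frobenius push-forward. -/
theorem splits (p : ℕ) [CharP k p] (hn : 2 ≤ n) (m : ℤ) (hm : ((n : k) + m - 2) ≠ 0) (e : ℕ) (he : 1 ≤ e) :
    FrobeniusPushforwardSplits p k n m e := by
  refine ⟨fun _ => retr ((n : k) + m - 2), fun g d hg => ⟨fun f hf => retr_mem hg _ hf,
    fun f hf => retr_id hn hg rfl hm hf, fun f _ f' _ => retr_add _ f f', fun c _ f _ => retr_frob p e he _ c f,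
    fun _ _ _ _ _ => rfl⟩⟩

end rat

end Pool.Agent.R928.Gr
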