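import Pool.Agent.R537.LR.Stm
import Pool.Agent.R537.HA.Mem

/-!
# Low-rank approximation belongs to `∃ℝ` for `p = 0` and `p = 1`
-/

set_option autoImplicit false

namespace Pool.Agent.NPC.R537LR

open Pool.Agent.NPC Pool.Agent.NPC.ER Pool.Agent.NPC.H670R2 Matrix
open Pool.Agent.NPC.R537HA (pt dotT poly_pt poly_dotT asgOf asgOf_eq ext0 sum_map_range'
  eval_dotT eval_dotT' matV)

/-- The number of the columns. -/
def RMat.memWd (M : RMat) : ℕ := (M.getD 0 []).length

namespace Mem928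

/-! ### Comparison with rational numbers -/

/-- `t < q`. -/
def ltRat (t : Tm) (q : ℚ) : Fm := Fm.lt (Tm.mul (natTm q.den) t) (intTm q.num)

/-- `t ≤ q`. -/
def leRat (t : Tm) (q : ℚ) : Fm := Fm.le (Tm.mul (natTm q.den) t) (intTm q.num)

/-- `q ≤ t`. -/
def geRat (t : Tm) (q : ℚ) : Fm := Fm.le (intTm q.num) (Tm.mul (natTm q.den) t)

theorem den_pos' (q : ℚ) : (0 : ℝ) < q.den := by exact_mod_cast q.den_pos

theorem cast_eq' (q : ℚ) : (q : ℝ) = q.num / q.den := by
  exact_mod_cast (Rat.num_div_den q).symm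

theorem holds_ltRat (x : ℕ → ℝ) (t : Tm) (q : ℚ) : (ltRat t q).Holds x ↔ t.eval x < q := by
  unfold ltRat
  simp only [Fm.Holds, Tm.eval, eval_natTm, eval_intTm]
  rw [cast_eq', lt_div_iff₀ (den_pos' q), mul_comm]

theorem holds_leRat (x : ℕ → ℝ) (t : Tm) (q : ℚ) : (leRat t q).Holds x ↔ t.eval x ≤ q := by
  unfold leRat
  simp only [Fm.Holds, Tm.eval, eval_natTm, eval_intTm]
  rw [cast_eq', le_div_iff₀ (den_pos' q), mul_comm]

theorem holds_geRat (x : ℕ → ℝ) (t : Tm) (q : ℚ) : (geRat t q).Holds x ↔ (q : ℝ) ≤ t.eval x := by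
  unfold geRat
  simp only [Fm.Holds, Tm.eval, eval_natTm, eval_intTm]
  rw [cast_eq', div_le_iff₀ (den_pos' q), mul_comm]

section

variable {α : Type} [TEnc α] {t : α → Tm} {q : α → ℚ}

theorem poly_ltRat (ht : Poly t) (hq : Poly q) : Poly (fun a => ltRat (t a) (q a)) :=
  poly_lt (poly_tmul (poly_natTm (poly_ratDen hq)) ht) (poly_intTm (poly_ratNum hq))

theorem poly_leRat (ht : Poly t) (hq : Poly q) : Poly (fun a => leRat (t a) (q a)) :=
  poly_le (poly_tmul (poly_natTm (poly_ratDen hq)) ht) (poly_intTm (poly_ratNum hq))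

theorem poly_geRat (ht : Poly t) (hq : Poly q) : Poly (fun a => geRat (t a) (q a)) :=
  poly_le (poly_intTm (poly_ratNum hq)) (poly_tmul (poly_natTm (poly_ratDen hq)) ht)

end

/-! ### The formulas -/

theorem isMat_wd {M : RMat} {m n : ℕ} (h : M.IsMat m n) (hm : m ≠ 0) : M.memWd = n := by
  unfold RMat.memWd
  refine h.2 _ ?_
  rw [List.getD_eq_getElem _ _ (by rw [h.1]; omega)]
  exact List.getElem_mem _

/-- The instance is a matrix. -/
def okM (M : RMat) : Bool := M.all fun r => decide (r.length = M.memWd)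

theorem okM_iff (M : RMat) : okM M = true ↔ M.IsMat M.length M.memWd := by
  unfold okM RMat.IsMat
  simp only [List.all_eq_true, decide_eq_true_eq, true_and]

/-- The constraints for the entries. -/
def entL (cst : Tm → Tm → ℚ → Fm) (M : RMat) (w m n k : ℕ) : List Fm :=
  (List.range m).flatMap fun i => (List.range n).map fun j =>
    cst (dotT w 0 1 k i j) (pt w 2 i j) (M.entry i j)

/-- The sum of the bounds. -/
def sumL (w m n : ℕ) : Tm :=
  sumTm ((List.range m).map fun i => sumTm ((List.range n).map fun j => pt w 2 i j))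

/-- The formula of an instance. -/
def fL (cst : Tm → Tm → ℚ → Fm) (I : RMat × ℕ × ℚ) : Fm :=
  bif okM I.1 then
    Fm.and (conj (entL cst I.1 (I.1.length + I.1.memWd + 1) I.1.length I.1.memWd (min I.2.1 I.1.length)))
      (ltRat (sumL (I.1.length + I.1.memWd + 1) I.1.length I.1.memWd) I.2.2)
  else H670R2.ff

theorem eval_sumL (v : ℕ → ℝ) (w m n : ℕ) : (sumL w m n).eval v =
    ∑ i ∈ Finset.range m, ∑ j ∈ Finset.range n, v (8 * (i * w + j) + 2) := by
  unfold sumL
  rw [eval_sumTm, List.map_map, ← sum_map_range']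
  congr 1
  refine List.map_congr_left fun i _ => ?_
  change (sumTm _).eval v = _
  rw [eval_sumTm, List.map_map, ← sum_map_range']
  rfl

theorem holds_entL {cst : Tm → Tm → ℚ → Fm} {R : ℝ → ℝ → ℚ → Prop}
    (hc : ∀ v s t q, (cst s t q).Holds v ↔ R (s.eval v) (t.eval v) q) {v : ℕ → ℝ} {M : RMat}
    {w m n k : ℕ} : (∀ φ ∈ entL cst M w m n k, φ.Holds v) ↔ ∀ i < m, ∀ j < n,
      R (∑ l ∈ Finset.range k, v (8 * (i * w + l) + 0) * v (8 * (l * w + j) + 1))
        (v (8 * (i * w + j) + 2)) (M.entry i j) := by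
  unfold entL
  simp only [List.forall_mem_flatMap, List.forall_mem_map, List.mem_range, hc, eval_dotT]
  rfl

/-- The approximation problem for a relation between the entry, the bound and the target. -/
def LRg (R : ℝ → ℝ → ℚ → Prop) (I : RMat × ℕ × ℚ) : Prop :=
  ∃ m n : ℕ, I.1.IsMat m n ∧ ∃ B : Matrix (Fin m) (Fin n) ℝ, B.rank ≤ I.2.1 ∧
    ∃ D : Matrix (Fin m) (Fin n) ℝ, (∀ i j, R (B i j) (D i j) (I.1.entry i j)) ∧
      ∑ i, ∑ j, D i j < I.2.2

theorem sum_ext0 {m n : ℕ} (D : Matrix (Fin m) (Fin n) ℝ) :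
    ∑ i ∈ Finset.range m, ∑ j ∈ Finset.range n, ext0 D i j = ∑ i, ∑ j, D i j := by
  rw [← Fin.sum_univ_eq_sum_range (fun i => ∑ j ∈ Finset.range n, ext0 D i j)]
  refine Finset.sum_congr rfl fun i _ => ?_
  rw [← Fin.sum_univ_eq_sum_range (fun j => ext0 D i j)]
  refine Finset.sum_congr rfl fun j _ => ?_
  unfold ext0
  rw [dif_pos ⟨i.2, j.2⟩]

theorem mul_ext0 {m n r q : ℕ} (hr : r ≤ q) (U : Matrix (Fin m) (Fin r) ℝ)
    (V : Matrix (Fin r) (Fin n) ℝ) (i : Fin m) (j : Fin n) :
    (U * V) i j = ∑ l ∈ Finset.range q, ext0 U i l * ext0 V l j := by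
  have h1 : ∑ l ∈ Finset.range r, ext0 U i l * ext0 V l j =
      ∑ l ∈ Finset.range q, ext0 U i l * ext0 V l j := by
    refine Finset.sum_subset (fun x hx => ?_) fun x _ hx => ?_
    · rw [Finset.mem_range] at hx ⊢
      omega
    · rw [Finset.mem_range] at hx
      have : ext0 U i x = 0 := by
        unfold ext0
        rw [dif_neg (fun h => hx h.2)]
      rw [this, zero_mul]
  rw [← h1, Matrix.mul_apply, ← Fin.sum_univ_eq_sum_range (fun l => ext0 U i l * ext0 V l j)]
  refine Finset.sum_congr rfl fun l _ => ?_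
  unfold ext0
  rw [dif_pos ⟨i.2, l.2⟩, dif_pos ⟨l.2, j.2⟩]

theorem lrg_iff_etr {cst : Tm → Tm → ℚ → Fm} {R : ℝ → ℝ → ℚ → Prop}
    (hc : ∀ v s t q, (cst s t q).Holds v ↔ R (s.eval v) (t.eval v) q) (I : RMat × ℕ × ℚ) :
    LRg R I ↔ ETR (fL cst I) := by
  obtain ⟨M, k, ε⟩ := I
  unfold fL LRg
  by_cases hs : okM M = true
  · simp only
    rw [hs, cond_true]
    have h1 := (okM_iff _).1 hs
    set m := M.length with hm
    set n := M.memWd with hn
    set w := m + n + 1 with hw
    set q := min k m with hq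
    unfold ETR
    simp only [Fm.Holds, holds_conj, holds_entL hc, holds_ltRat, eval_sumL]
    constructor
    · rintro ⟨m', n', hM, B, hB, D, hD, hs⟩
      obtain rfl : m' = m := hM.1.symm
      by_cases hm0 : m = 0
      · refine ⟨fun _ => 0, fun i hi => absurd hi (by omega), ?_⟩
        have e1 : ∑ i, ∑ j, D i j = 0 :=
          Finset.sum_eq_zero fun i _ => absurd i.2 (by omega)
        rw [hm0, Finset.range_zero, Finset.sum_empty]
        rwa [e1] at hs
      · obtain rfl : n = n' := isMat_wd hM hm0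
        obtain ⟨U, V, hUV⟩ := R537.HA.exists_mul_of_rank B rfl
        have hr : B.rank ≤ q := le_min hB (Matrix.rank_le_height B)
        let F : ℕ → ℕ → ℕ → ℝ := fun o => if o = 0 then ext0 U else if o = 1 then ext0 V
          else ext0 D
        refine ⟨asgOf w F, fun i hi j hj => ?_, ?_⟩
        · have e1 : ∑ l ∈ Finset.range q, asgOf w F (8 * (i * w + l) + 0) *
              asgOf w F (8 * (l * w + j) + 1) = B ⟨i, hi⟩ ⟨j, hj⟩ := by
            rw [hUV, mul_ext0 hr]
            refine Finset.sum_congr rfl fun l hl => ?_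
            rw [Finset.mem_range] at hl
            rw [asgOf_eq F (by norm_num) (by omega), asgOf_eq F (by norm_num) (by omega)]
            rfl
          have e2 : asgOf w F (8 * (i * w + j) + 2) = D ⟨i, hi⟩ ⟨j, hj⟩ := by
            rw [asgOf_eq F (by norm_num) (by omega)]
            change ext0 D i j = _
            unfold ext0
            rw [dif_pos ⟨hi, hj⟩]
          rw [e1, e2]
          exact hD ⟨i, hi⟩ ⟨j, hj⟩
        · have e3 : ∑ i ∈ Finset.range m, ∑ j ∈ Finset.range n,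
              asgOf w F (8 * (i * w + j) + 2) = ∑ i, ∑ j, D i j := by
            rw [← sum_ext0]
            refine Finset.sum_congr rfl fun i hi => Finset.sum_congr rfl fun j hj => ?_
            rw [Finset.mem_range] at hi hj
            rw [asgOf_eq F (by norm_num) (by omega)]
            rfl
          rw [e3]
          exact hs
    · rintro ⟨v, h4, h5⟩
      refine ⟨m, n, h1, matV v w 0 m q * matV v w 1 q n, ?_, matV v w 2 m n, ?_, ?_⟩
      · exact (R537.HA.rank_mul_le_mid _ _).trans (min_le_left _ _)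
      · intro i j
        have h6 := h4 i i.2 j j.2
        rw [← eval_dotT' v w 0 1 m q n i j, eval_dotT]
        exact h6
      · have e3 : ∑ i : Fin m, ∑ j : Fin n, matV v w 2 m n i j =
            ∑ i ∈ Finset.range m, ∑ j ∈ Finset.range n, v (8 * (i * w + j) + 2) := by
          rw [← Fin.sum_univ_eq_sum_range (fun i => ∑ j ∈ Finset.range n, v (8 * (i * w + j) + 2))]
          refine Finset.sum_congr rfl fun i _ => ?_
          rw [← Fin.sum_univ_eq_sum_range (fun j => v (8 * ((i : ℕ) * w + j) + 2))]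
          rfl
        rw [e3]
        exact h5
  · have h' : okM M = false := by simpa using hs
    simp only
    rw [h', cond_false]
    constructor
    · rintro ⟨m, n, hM, -⟩
      exfalso
      apply hs
      rw [okM_iff]
      have hm : M.length = m := hM.1
      by_cases hm0 : m = 0
      · refine ⟨rfl, fun r hr => ?_⟩
        have : M = [] := List.length_eq_zero_iff.1 (by omega)
        rw [this] at hr
        simp at hr
      · rw [hm, isMat_wd hM hm0]
        exact hM
    · intro h2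
      exact absurd h2 not_etr_ff

/-! ### Polynomial time -/

section

variable {α : Type} [TEnc α] {w i j q p m n k l : α → ℕ} {M : α → RMat}

theorem poly_entryL (hM : Poly M) (hi : Poly i) (hj : Poly j) :
    Poly (fun a => (M a).entry (i a) (j a)) :=
  Poly.getD (Poly.getD hM hi (Poly.const [])) hj (Poly.const (0 : ℚ))

theorem upoly_wdL (hM : Poly M) : UPoly (fun a => (M a).memWd) :=
  UPoly.length (Poly.getD hM (Poly.const 0) (Poly.const []))

theorem poly_sumL (hw : Poly w) (hm : UPoly m) (hn : UPoly n) :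
    Poly (fun a => sumL (w a) (m a) (n a)) := by
  refine poly_sumTm (Poly.map (F := fun a i => sumTm ((List.range (n a)).map fun j =>
    pt (w a) 2 i j)) hm.range ?_)
  refine poly_sumTm (Poly.map (F := fun (r : α × ℕ) j => pt (w r.1) 2 r.2 j)
    (hn.range.comp (Poly.fst Poly.id)) ?_)
  have q1 : Poly (fun q : (α × ℕ) × ℕ => q.1.1) := Poly.fst (Poly.fst Poly.id)
  have q2 : Poly (fun q : (α × ℕ) × ℕ => q.1.2) := Poly.snd (Poly.fst Poly.id)
  have q3 : Poly (fun q : (α × ℕ) × ℕ => q.2) := Poly.snd Poly.id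
  exact poly_pt 2 (hw.comp q1) q2 q3

theorem poly_entL {cst : Tm → Tm → ℚ → Fm}
    (hp : ∀ (β : Type) [TEnc β] (s t : β → Tm) (x : β → ℚ), Poly s → Poly t → Poly x →
      Poly (fun b => cst (s b) (t b) (x b)))
    (hM : Poly M) (hw : Poly w) (hm : UPoly m) (hn : UPoly n) (hk : UPoly k) :
    Poly (fun a => entL cst (M a) (w a) (m a) (n a) (k a)) := by
  refine Poly.flatMap (F := fun a i => (List.range (n a)).map fun j =>
    cst (dotT (w a) 0 1 (k a) i j) (pt (w a) 2 i j) ((M a).entry i j)) hm.range ?_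
  refine Poly.map (F := fun (r : α × ℕ) j =>
    cst (dotT (w r.1) 0 1 (k r.1) r.2 j) (pt (w r.1) 2 r.2 j) ((M r.1).entry r.2 j))
    (hn.range.comp (Poly.fst Poly.id)) ?_
  have q1 : Poly (fun q : (α × ℕ) × ℕ => q.1.1) := Poly.fst (Poly.fst Poly.id)
  have q2 : Poly (fun q : (α × ℕ) × ℕ => q.1.2) := Poly.snd (Poly.fst Poly.id)
  have q3 : Poly (fun q : (α × ℕ) × ℕ => q.2) := Poly.snd Poly.id
  exact hp _ _ _ _ (poly_dotT 0 1 (hw.comp q1) (hk.comp q1) q2 q3) (poly_pt 2 (hw.comp q1) q2 q3)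
    (poly_entryL (hM.comp q1) q2 q3)

end

theorem poly_okM : Poly okM :=
  Poly.all (p := fun (M : RMat) (r : List ℚ) => decide (r.length = M.memWd)) Poly.id
    (Poly.decide_eq (Poly.length (Poly.snd Poly.id)) ((upoly_wdL Poly.id).toPoly.comp
      (Poly.fst Poly.id)))

theorem poly_fL {cst : Tm → Tm → ℚ → Fm}
    (hp : ∀ (β : Type) [TEnc β] (s t : β → Tm) (x : β → ℚ), Poly s → Poly t → Poly x →
      Poly (fun b => cst (s b) (t b) (x b))) : Poly (fL cst) := by
  have h1 : Poly (fun I : RMat × ℕ × ℚ => I.1) := Poly.fst Poly.id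
  have h2 : Poly (fun I : RMat × ℕ × ℚ => I.2.1) := Poly.fst (Poly.snd Poly.id)
  have h3 : Poly (fun I : RMat × ℕ × ℚ => I.2.2) := Poly.snd (Poly.snd Poly.id)
  have hm : UPoly (fun I : RMat × ℕ × ℚ => I.1.length) := UPoly.length h1
  have hn : UPoly (fun I : RMat × ℕ × ℚ => I.1.memWd) := upoly_wdL h1
  have hw : Poly (fun I : RMat × ℕ × ℚ => I.1.length + I.1.memWd + 1) :=
    Poly.add (Poly.add hm.toPoly hn.toPoly) (Poly.const 1)
  have hk : UPoly (fun I : RMat × ℕ × ℚ => min I.2.1 I.1.length) :=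
    UPoly.of_le (Poly.min h2 hm.toPoly) hm fun a => min_le_right _ _
  exact Poly.cond (poly_okM.comp h1) (poly_and (poly_conj (poly_entL hp h1 hw hm hn hk))
    (poly_ltRat (poly_sumL hw hm hn) h3)) (Poly.const _)

theorem mem_LRg {cst : Tm → Tm → ℚ → Fm} {R : ℝ → ℝ → ℚ → Prop}
    (hc : ∀ v s t q, (cst s t q).Holds v ↔ R (s.eval v) (t.eval v) q)
    (hp : ∀ (β : Type) [TEnc β] (s t : β → Tm) (x : β → ℚ), Poly s → Poly t → Poly x →
      Poly (fun b => cst (s b) (t b) (x b))) : InER (lang (LRg R)) :=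
  ER.InER.of_poly (poly_fL hp) (lrg_iff_etr hc)

/-! ### `p = 1` -/

/-- The constraint for `p = 1`. -/
def cst1 (s t : Tm) (q : ℚ) : Fm :=
  Fm.and (leRat (Tm.add s (Tm.neg t)) q) (geRat (Tm.add s t) q)

theorem holds_cst1 (v : ℕ → ℝ) (s t : Tm) (q : ℚ) :
    (cst1 s t q).Holds v ↔ |(q : ℝ) - s.eval v| ≤ t.eval v := by
  unfold cst1
  simp only [Fm.Holds, holds_leRat, holds_geRat, Tm.eval]
  rw [abs_le]
  constructor
  · rintro ⟨h1, h2⟩
    constructor <;> linarith
  · rintro ⟨h1, h2⟩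
    constructor <;> linarith

theorem lra1_eq : LRA1 = LRg (fun x d q => |(q : ℝ) - x| ≤ d) := by
  funext I
  apply propext
  unfold LRA1 LRg
  constructor
  · rintro ⟨m, n, hM, h0, B, hB, hd⟩
    refine ⟨m, n, hM, B, hB, Matrix.of fun i j => |((I.1.entry i j : ℚ) : ℝ) - B i j|,
      fun i j => le_rfl, ?_⟩
    exact hd
  · rintro ⟨m, n, hM, B, hB, D, hD, hs⟩
    have h1 : dist1 (I.1.real m n) B ≤ ∑ i, ∑ j, D i j :=
      Finset.sum_le_sum fun i _ => Finset.sum_le_sum fun j _ => hD i j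
    have h2 : 0 ≤ dist1 (I.1.real m n) B :=
      Finset.sum_nonneg fun i _ => Finset.sum_nonneg fun j _ => abs_nonneg _
    refine ⟨m, n, hM, ?_, B, hB, h1.trans_lt hs⟩
    have h3 : (0 : ℝ) < ((I.2.2 : ℚ) : ℝ) := (h2.trans h1).trans_lt hs
    exact_mod_cast h3

/-! ### `p = 0` -/

/-- The constraint for `p = 0`. -/
def cst0 (s t : Tm) (q : ℚ) : Fm :=
  Fm.and (Fm.le Tm.zero t) (Fm.or (Fm.eq t Tm.one) (eqRat s q))

theorem holds_cst0 (v : ℕ → ℝ) (s t : Tm) (q : ℚ) :
    (cst0 s t q).Holds v ↔ 0 ≤ t.eval v ∧ (t.eval v = 1 ∨ s.eval v = q) := by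
  unfold cst0
  simp only [Fm.Holds, holds_eqRat, Tm.eval]

theorem dist0_eq {m n : ℕ} (A B : Matrix (Fin m) (Fin n) ℝ) :
    dist0 A B = ∑ i, ∑ j, if A i j ≠ B i j then (1 : ℝ) else 0 := by
  unfold dist0
  rw [Finset.card_filter, Nat.cast_sum, Fintype.sum_prod_type]
  refine Finset.sum_congr rfl fun i _ => Finset.sum_congr rfl fun j _ => ?_
  push_cast
  rfl

theorem lra0_eq : LRA0 = LRg (fun x d q => 0 ≤ d ∧ (d = 1 ∨ x = (q : ℝ))) := by
  funext I
  apply propext
  unfold LRA0 LRg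
  constructor
  · rintro ⟨m, n, hM, h0, B, hB, hd⟩
    rw [dist0_eq] at hd
    refine ⟨m, n, hM, B, hB, Matrix.of fun i j => if I.1.real m n i j ≠ B i j then (1 : ℝ) else 0,
      fun i j => ?_, hd⟩
    rw [Matrix.of_apply]
    by_cases h : I.1.real m n i j ≠ B i j
    · rw [if_pos h]
      exact ⟨zero_le_one, Or.inl rfl⟩
    · rw [if_neg h]
      rw [not_not] at h
      exact ⟨le_rfl, Or.inr h.symm⟩
  · rintro ⟨m, n, hM, B, hB, D, hD, hs⟩
    have h1 : dist0 (I.1.real m n) B ≤ ∑ i, ∑ j, D i j := by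
      rw [dist0_eq]
      refine Finset.sum_le_sum fun i _ => Finset.sum_le_sum fun j _ => ?_
      obtain ⟨h2, h3⟩ := hD i j
      by_cases h : I.1.real m n i j ≠ B i j
      · rw [if_pos h]
        rcases h3 with h3 | h3
        · exact h3.ge
        · exact absurd h3.symm h
      · rw [if_neg h]
        exact h2
    have h2 : 0 ≤ dist0 (I.1.real m n) B := by
      unfold dist0
      exact Nat.cast_nonneg _
    refine ⟨m, n, hM, ?_, B, hB, h1.trans_lt hs⟩
    have h3 : (0 : ℝ) < ((I.2.2 : ℚ) : ℝ) := (h2.trans h1).trans_lt hs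
    exact_mod_cast h3

end Mem928

open Mem928

theorem t_MEM0 : S_MEM0 := by
  unfold S_MEM0
  rw [lra0_eq]
  refine mem_LRg holds_cst0 fun β _ s t x hs ht hx => ?_
  exact poly_and (poly_le (Poly.const _) ht) (poly_or (poly_eq ht (Poly.const _)) (poly_eqRat hs hx))

theorem t_MEM1 : S_MEM1 := by
  unfold S_MEM1
  rw [lra1_eq]
  refine mem_LRg holds_cst1 fun β _ s t x hs ht hx => ?_
  exact poly_and (poly_leRat (poly_tadd hs (poly_tneg ht)) hx) (poly_geRat (poly_tadd hs ht) hx)

end Pool.Agent.NPC.R537LR
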