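import Pool.Agent.R972.OP.Stm

/-!
# Piece OP-LAT: the lattice inequality
-/

set_option autoImplicit false

namespace Pool.Agent.R972.OP

namespace Lat

lemma mv_mv {n : ℕ} (i j : ℕ) (g : Fin n → ℕ) : mv i j (mv i j g) = g := by
  funext a
  simp [mv]

open Classical in
/-- the weights -/
noncomputable def w {n : ℕ} (N : ℕ) (R : Fin n → Fin n → Prop) (c : ℕ → ℝ)
    (x y : {g // g ∈ cfg N R}) : ℝ :=
  ∑ k ∈ Finset.range (N - 1), if mv k (k + 1) x.1 = y.1 then c k else 0

lemma w_symm {n : ℕ} (N : ℕ) (R : Fin n → Fin n → Prop) (c : ℕ → ℝ)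
    (x y : {g // g ∈ cfg N R}) : w N R c x y = w N R c y x := by
  unfold w
  refine Finset.sum_congr rfl fun k _ => ?_
  have : mv k (k + 1) x.1 = y.1 ↔ mv k (k + 1) y.1 = x.1 := by
    constructor
    · intro h; rw [← h, mv_mv]
    · intro h; rw [← h, mv_mv]
  simp only [this]

open Classical in
lemma sum_w {n : ℕ} (N : ℕ) (R : Fin n → Fin n → Prop) (c : ℕ → ℝ)
    (x : {g // g ∈ cfg N R}) (φ : (Fin n → ℕ) → ℝ) :
    ∑ y : {g // g ∈ cfg N R}, w N R c x y * φ y.1 =
      ∑ k ∈ Finset.range (N - 1),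
        if mv k (k + 1) x.1 ∈ cfg N R then c k * φ (mv k (k + 1) x.1) else 0 := by
  unfold w
  simp_rw [Finset.sum_mul]
  rw [Finset.sum_comm]
  refine Finset.sum_congr rfl fun k _ => ?_
  split_ifs with h
  · rw [Finset.sum_eq_single ⟨mv k (k + 1) x.1, h⟩]
    · simp
    · intro y _ hy
      rw [if_neg, zero_mul]
      intro he
      exact hy (Subtype.ext he.symm)
    · intro hn
      exact absurd (Finset.mem_univ _) hn
  · apply Finset.sum_eq_zero
    intro y _
    rw [if_neg, zero_mul]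
    intro he
    rw [he] at h
    exact h y.2

end Lat

open Classical in
theorem lat (h1 : S_CON) (h2 : S_CONN) (h3 : S_LA) : S_LAT := by
  intro n N R W c m hWC F
  have key := h3 {g // g ∈ cfg N R} (Lat.w N R c) (Lat.w_symm N R c) ?_ (fun x => F x.1)
  · rw [Fintype.card_coe] at key
    have e1 : ∑ x : {g // g ∈ cfg N R}, F x.1 ^ 2 = ∑ g ∈ cfg N R, F g ^ 2 :=
      Finset.sum_coe_sort (cfg N R) (fun g => F g ^ 2)
    have e2 : ∑ x : {g // g ∈ cfg N R}, F x.1 = ∑ g ∈ cfg N R, F g :=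
      Finset.sum_coe_sort (cfg N R) F
    have e3 : ∑ x : {g // g ∈ cfg N R}, ∑ y : {g // g ∈ cfg N R},
        Lat.w N R c x y * (F y.1 - F x.1) ^ 2 = ∑ g ∈ cfg N R, QQ N R c F g := by
      rw [← Finset.sum_coe_sort (cfg N R) (fun g => QQ N R c F g)]
      refine Finset.sum_congr rfl fun x _ => ?_
      rw [Lat.sum_w N R c x (fun g => (F g - F x.1) ^ 2)]
      rfl
    rw [e1, e2, e3] at key
    exact key
  · intro lam G hG hne
    set G' : (Fin n → ℕ) → ℝ := fun g => if h : g ∈ cfg N R then G ⟨g, h⟩ else 0 with hG'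
    have hGG : ∀ x : {g // g ∈ cfg N R}, G' x.1 = G x := by
      intro x
      rw [hG']
      simp
    apply h1 n N R W c m lam G' hWC
    · intro g hg
      have e4 := hG ⟨g, hg⟩
      have e5 : ∑ y : {g // g ∈ cfg N R}, Lat.w N R c ⟨g, hg⟩ y * (G y - G ⟨g, hg⟩) =
          ∑ y : {g // g ∈ cfg N R}, Lat.w N R c ⟨g, hg⟩ y * (G' y.1 - G' g) := by
        refine Finset.sum_congr rfl fun y _ => ?_
        rw [hGG y, hGG ⟨g, hg⟩]
      rw [e5, Lat.sum_w N R c ⟨g, hg⟩ (fun h => G' h - G' g), ← hGG ⟨g, hg⟩] at e4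
      exact e4
    · by_contra hcon
      push Not at hcon
      obtain ⟨x, y, hxy⟩ := hne
      apply hxy
      rw [← hGG x, ← hGG y]
      exact h2 n N R G' (fun g hg k hk hmem => hcon g hg k hk hmem) x.1 x.2 y.1 y.2

end Pool.Agent.R972.OP
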