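import Pool.Agent.R641.PH.Stm
import Pool.Agent.Y351.LQ.PBWB

/-!
PH-L: for a Lie subalgebra `H` of `L` and `x ∉ H` there is a module with a vector killed by `H` but
not by `x`.
-/

set_option autoImplicit false

namespace Pool.Agent.R928.PHL

open H67OL

attribute [local instance 100] LieRing.ofAssociativeRing

variable (K : Type) [Field K] (L : Type) [LieRing L] [LieAlgebra K L]

/-- The augmentation of the enveloping algebra. -/
noncomputable def aug : UniversalEnvelopingAlgebra K L →ₐ[K] K :=
  UniversalEnvelopingAlgebra.lift K (0 : L →ₗ⁅K⁆ K)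

lemma aug_ι (y : L) : aug K L (UniversalEnvelopingAlgebra.ι K y) = 0 := by
  unfold aug
  rw [UniversalEnvelopingAlgebra.lift_ι_apply]
  rfl

/-- A linear order in which the elements of `S` come last. -/
lemma exists_ord {T : Type} (S : Set T) :
    ∃ lo : LinearOrder T, ∀ a b : T, a ∉ S → b ∈ S → lo.le a b := by
  classical
  let l0 : LinearOrder T := linearOrderOfSTO (WellOrderingRel (α := T))
  refine ⟨LinearOrder.lift' (fun t : T => toLex (decide (t ∈ S), t)) (by
    intro a b h
    exact congrArg (fun z => (ofLex z).2) h), ?_⟩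
  intro a b ha hb
  change toLex (decide (a ∈ S), a) ≤ toLex (decide (b ∈ S), b)
  rw [Prod.Lex.le_iff]
  left
  simp [ha, hb]

/-- The nonempty products of letters from a subalgebra are combinations of nonempty sorted
products. -/
lemma nonempty_sorted {B : Type} [LinearOrder B] (g : B → L)
    (hcl : ∀ β γ, ⁅g β, g γ⁆ ∈ Submodule.span K (Set.range g)) (l : List B) (hl : l ≠ []) :
    (l.map (fun i => UniversalEnvelopingAlgebra.ι K (g i))).prod ∈
      Submodule.span K {z | ∃ m : List B, m ≠ [] ∧ m.Pairwise (· ≤ ·) ∧
        z = (m.map (fun i => UniversalEnvelopingAlgebra.ι K (g i))).prod} := by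
  set G : B → UniversalEnvelopingAlgebra K L := fun i => UniversalEnvelopingAlgebra.ι K (g i)
    with hG
  set N : Submodule K (UniversalEnvelopingAlgebra K L) :=
    Submodule.span K {z | ∃ m : List B, m ≠ [] ∧ m.Pairwise (· ≤ ·) ∧
        z = (m.map G).prod} with hN
  have hcomm : ∀ β γ, G β * G γ - G γ * G β ∈ Submodule.span K
      {z | ∃ δ, (fun _ : B => 1) δ ≤ (fun _ : B => 1) β + (fun _ : B => 1) γ ∧ z = G δ} := by
    intro β γ
    have e : G β * G γ - G γ * G β = UniversalEnvelopingAlgebra.ι K ⁅g β, g γ⁆ := by
      rw [LieHom.map_lie, LieRing.of_associative_ring_bracket]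
    rw [e]
    have h1 : UniversalEnvelopingAlgebra.ι K ⁅g β, g γ⁆ ∈
        Submodule.map (UniversalEnvelopingAlgebra.ι K : L →ₗ⁅K⁆ _).toLinearMap
          (Submodule.span K (Set.range g)) := ⟨_, hcl β γ, rfl⟩
    rw [Submodule.map_span] at h1
    refine Submodule.span_mono ?_ h1
    rintro _ ⟨_, ⟨i, rfl⟩, rfl⟩
    exact ⟨i, by simp, rfl⟩
  have h3 := t_SORT K (UniversalEnvelopingAlgebra K L) B G (fun _ => 1) hcomm l
  have h4 : (l.map G).prod ∈ Submodule.span K {(1 : UniversalEnvelopingAlgebra K L)} ⊔ N := by
    refine Submodule.span_le.2 ?_ h3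
    rintro _ ⟨m, hm, _, rfl⟩
    by_cases h : m = []
    · subst h
      exact Submodule.mem_sup_left (Submodule.subset_span (by simp))
    · exact Submodule.mem_sup_right (Submodule.subset_span ⟨m, h, hm, rfl⟩)
  have haug : ∀ m : List B, m ≠ [] → aug K L (m.map G).prod = 0 := by
    intro m hm
    obtain ⟨a, t, rfl⟩ := List.exists_cons_of_ne_nil hm
    rw [List.map_cons, List.prod_cons, map_mul, hG]
    simp only [aug_ι, zero_mul]
  rw [Submodule.mem_sup] at h4
  obtain ⟨y, hy, z, hz, hyz⟩ := h4
  rw [Submodule.mem_span_singleton] at hy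
  obtain ⟨c, rfl⟩ := hy
  have hz0 : aug K L z = 0 := by
    have : N ≤ LinearMap.ker (aug K L).toLinearMap := by
      rw [hN, Submodule.span_le]
      rintro _ ⟨m, hm, _, rfl⟩
      exact haug m hm
    exact this hz
  have hc : c = 0 := by
    have := congrArg (aug K L) hyz
    rw [map_add, hz0, haug l hl, map_smul, map_one, add_zero, smul_eq_mul, mul_one] at this
    exact this
  rw [← hyz, hc, zero_smul, zero_add]
  exact hz

theorem t_L : R641.PH.S_L := by
  intro K L _ _ _ H x hx
  classical
  -- a basis of `L` containing a basis of `H` and `x`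
  set bH := Module.Basis.ofVectorSpace K H with hbH
  set S : Set L := Set.range (fun i => (bH i : L)) with hS
  have hSspan : Submodule.span K S = H.toSubmodule := by
    have h1 : S = (H.toSubmodule.subtype) '' Set.range bH := by
      rw [hS, ← Set.range_comp]; rfl
    rw [h1, ← Submodule.map_span, bH.span_eq, Submodule.map_subtype_top]
  have hSind : LinearIndepOn K id S := by
    have h1 : LinearIndependent K (fun i => (bH i : L)) :=
      bH.linearIndependent.map' H.toSubmodule.subtype (Submodule.ker_subtype _)
    exact h1.linearIndepOn_id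
  have hxS : x ∉ Submodule.span K S := by
    rw [hSspan]; exact hx
  have hins : LinearIndepOn K id (insert x S) := by
    refine hSind.insert ?_
    simpa using hxS
  set T := hins.extend (Set.subset_univ _) with hT
  set b : Module.Basis T K L := Module.Basis.extend hins with hb
  have hTs : insert x S ⊆ T := hins.subset_extend (Set.subset_univ _)
  have hbv : ∀ t : T, b t = t := fun t => Module.Basis.extend_apply_self hins t
  set S' : Set T := {t | (t : L) ∈ S} with hS'
  obtain ⟨lo, hlo⟩ := exists_ord S'
  obtain ⟨β, hβ⟩ := Pool.Agent.Y351.LQ.t_PBWB K L T b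
  set G : T → UniversalEnvelopingAlgebra K L := fun i => UniversalEnvelopingAlgebra.ι K (b i)
    with hG
  -- words ending in a letter of `H`
  set W : Set {l : List T // l.Pairwise (· ≤ ·)} := {l | ∃ h : l.1 ≠ [], l.1.getLast h ∈ S'}
    with hW
  set M : Submodule K (UniversalEnvelopingAlgebra K L) := Submodule.span K (β '' W) with hM
  have hrange : Set.range (fun s : S' => b s.1) = S := by
    ext y
    constructor
    · rintro ⟨s, rfl⟩
      have h0 : (s.1 : L) ∈ S := s.2
      change b s.1 ∈ S
      rw [hbv]
      exact h0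
    · intro hy
      exact ⟨⟨⟨y, hTs (Set.mem_insert_of_mem _ hy)⟩, hy⟩, hbv _⟩
  have hcl : ∀ β γ : S', ⁅b β.1, b γ.1⁆ ∈ Submodule.span K (Set.range (fun s : S' => b s.1)) := by
    intro β γ
    rw [hrange, hSspan]
    have h1 : ∀ s : S', b s.1 ∈ H := by
      intro s
      have h2 : b s.1 ∈ Submodule.span K S := by
        rw [← hrange]
        exact Submodule.subset_span ⟨s, rfl⟩
      rw [hSspan] at h2
      exact h2
    exact H.lie_mem (h1 β) (h1 γ)
  have key : ∀ l : {l : List T // l.Pairwise (· ≤ ·)}, ∀ s : S', β l * G s ∈ M := by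
    rintro ⟨l, hl⟩ s
    rw [hβ]
    set l1 := l.takeWhile (fun t => decide (t ∉ S')) with hl1
    set l2 := l.dropWhile (fun t => decide (t ∉ S')) with hl2
    have hl12 : l = l1 ++ l2 := (List.takeWhile_append_dropWhile).symm
    have h1 : ∀ t ∈ l1, t ∉ S' := by
      intro t ht
      have := List.mem_takeWhile_imp ht
      simpa using this
    have hp1 : l1.Pairwise (· ≤ ·) := hl.sublist (List.takeWhile_sublist _)
    have hp2 : l2.Pairwise (· ≤ ·) := hl.sublist (List.dropWhile_sublist _)
    have h2 : ∀ t ∈ l2, t ∈ S' := by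
      intro t ht
      by_contra hts
      rcases hc : l2 with _ | ⟨a, r⟩
      · rw [hc] at ht
        simp at ht
      · have ha : a ∈ S' := by
          have hne : l2 ≠ [] := by rw [hc]; simp
          have := List.head_dropWhile_not (p := fun t => decide (t ∉ S')) (l := l) hne
          have h3 : (List.dropWhile (fun t => decide (t ∉ S')) l).head hne = a := by
            simp only [← hl2, hc, List.head_cons]
          rw [h3] at this
          simpa using this
        rw [hc] at ht hp2
        rcases List.mem_cons.1 ht with rfl | ht'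
        · exact hts ha
        · have h4 : a ≤ t := (List.pairwise_cons.1 hp2).1 t ht'
          have h5 : t ≤ a := hlo t a hts ha
          exact hts (le_antisymm h4 h5 ▸ ha)
    -- the H-letters as a word over the subtype
    obtain ⟨w, hw⟩ : ∃ w : List S', w.map Subtype.val = l2 := ⟨l2.attach.map
      (fun t => (⟨t.1, h2 t.1 t.2⟩ : S')), by
        rw [List.map_map]
        exact List.attach_map_subtype_val l2⟩
    have h3 := nonempty_sorted K L (fun s : S' => b s.1) hcl (w ++ [s]) (by simp)
    have h4 : (List.map (fun i => UniversalEnvelopingAlgebra.ι K (b i)) l).prod * G s.1 =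
        LinearMap.mulLeft K (l1.map G).prod
          ((w ++ [s]).map (fun i : S' => UniversalEnvelopingAlgebra.ι K (b i.1))).prod := by
      rw [LinearMap.mulLeft_apply, hl12, List.map_append, List.prod_append, List.map_append,
        List.prod_append, ← hw, List.map_map, mul_assoc]
      simp [hG, Function.comp_def]
    rw [h4]
    have h5 := Submodule.mem_map_of_mem (f := LinearMap.mulLeft K (l1.map G).prod) h3
    rw [Submodule.map_span] at h5
    refine Submodule.span_mono ?_ h5
    rintro _ ⟨_, ⟨m, hm, hms, rfl⟩, rfl⟩
    have hms' : (m.map Subtype.val).Pairwise (· ≤ ·) := by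
      rw [List.pairwise_map]
      exact hms
    refine ⟨⟨l1 ++ m.map Subtype.val, ?_⟩, ?_, ?_⟩
    · rw [List.pairwise_append]
      refine ⟨hp1, hms', ?_⟩
      intro a ha t ht
      obtain ⟨t', _, rfl⟩ := List.mem_map.1 ht
      exact hlo a _ (h1 a ha) t'.2
    · refine ⟨by simp [hm], ?_⟩
      rw [List.getLast_append_of_ne_nil (by simp [hm]) (by simp [hm])]
      rw [List.getLast_map]
      exact (m.getLast hm).2
    · rw [hβ, LinearMap.mulLeft_apply, List.map_append, List.prod_append, List.map_map]
      rfl
  have key2 : ∀ u : UniversalEnvelopingAlgebra K L, ∀ h ∈ H,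
      u * UniversalEnvelopingAlgebra.ι K h ∈ M := by
    intro u h hh
    have h1 : h ∈ Submodule.span K (Set.range (fun s : S' => b s.1)) := by
      rw [hrange, hSspan]
      exact hh
    have hu : u ∈ Submodule.span K (Set.range β) := by
      rw [β.span_eq]; trivial
    induction hu using Submodule.span_induction with
    | mem u hu =>
      obtain ⟨l, rfl⟩ := hu
      induction h1 using Submodule.span_induction with
      | mem y hy =>
        obtain ⟨s, rfl⟩ := hy
        exact key l s
      | zero => rw [map_zero, mul_zero]; exact M.zero_mem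
      | add y z hy hz hy' hz' =>
        rw [map_add, mul_add]
        have hyH : y ∈ H := by rw [hrange, hSspan] at hy; exact hy
        have hzH : z ∈ H := by rw [hrange, hSspan] at hz; exact hz
        exact M.add_mem (hy' hyH) (hz' hzH)
      | smul c y hy hy' =>
        have hyH : y ∈ H := by rw [hrange, hSspan] at hy; exact hy
        rw [map_smul, mul_smul_comm]
        exact M.smul_mem c (hy' hyH)
    | zero => rw [zero_mul]; exact M.zero_mem
    | add y z _ _ hy hz => rw [add_mul]; exact M.add_mem hy hz
    | smul c y _ hy => rw [smul_mul_assoc]; exact M.smul_mem c hy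
  -- the left ideal
  set N : Submodule (UniversalEnvelopingAlgebra K L) (UniversalEnvelopingAlgebra K L) :=
    Submodule.span _ ((fun h => UniversalEnvelopingAlgebra.ι K h) '' (H : Set L)) with hN
  have hNM : ∀ z ∈ N, z ∈ M := by
    intro z hz
    have : ∀ u : UniversalEnvelopingAlgebra K L, u * z ∈ M := by
      induction hz using Submodule.span_induction with
      | mem z hz =>
        obtain ⟨h, hh, rfl⟩ := hz
        exact fun u => key2 u h hh
      | zero => intro u; rw [mul_zero]; exact M.zero_mem
      | add y z _ _ hy hz => intro u; rw [mul_add]; exact M.add_mem (hy u) (hz u)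
      | smul a y _ hy => intro u; rw [smul_eq_mul, ← mul_assoc]; exact hy (u * a)
    simpa using this 1
  have hxN : UniversalEnvelopingAlgebra.ι K x ∉ N := by
    intro h
    have h1 := hNM _ h
    set t0 : T := ⟨x, hTs (Set.mem_insert _ _)⟩ with ht0
    have h2 : UniversalEnvelopingAlgebra.ι K x = β ⟨[t0], List.pairwise_singleton _ _⟩ := by
      rw [hβ]
      change _ = ([G t0]).prod
      rw [List.prod_singleton]
      change _ = UniversalEnvelopingAlgebra.ι K (b t0)
      rw [hbv]
    rw [h2] at h1
    refine β.linearIndependent.notMem_span_image ?_ h1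
    rintro ⟨_, h3⟩
    rw [List.getLast_singleton] at h3
    exact hxS (Submodule.subset_span h3)
  let lrm0 : LieRingModule (UniversalEnvelopingAlgebra K L) (UniversalEnvelopingAlgebra K L ⧸ N) :=
    LieRingModule.ofAssociativeModule
  have lm0 : LieModule K (UniversalEnvelopingAlgebra K L) (UniversalEnvelopingAlgebra K L ⧸ N) :=
    LieModule.ofAssociativeModule
  let lrm : LieRingModule L (UniversalEnvelopingAlgebra K L ⧸ N) :=
    LieRingModule.compLieHom _ (UniversalEnvelopingAlgebra.ι K)
  have lm : LieModule K L (UniversalEnvelopingAlgebra K L ⧸ N) :=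
    LieModule.compLieHom _ (UniversalEnvelopingAlgebra.ι K)
  refine ⟨UniversalEnvelopingAlgebra K L ⧸ N, inferInstance, inferInstance, lrm, lm,
    Submodule.Quotient.mk 1, ?_, ?_⟩
  · intro h hh
    change UniversalEnvelopingAlgebra.ι K h • (Submodule.Quotient.mk 1 : _ ⧸ N) = 0
    rw [← Submodule.Quotient.mk_smul, Submodule.Quotient.mk_eq_zero, smul_eq_mul, mul_one]
    exact Submodule.subset_span ⟨h, hh, rfl⟩
  · change UniversalEnvelopingAlgebra.ι K x • (Submodule.Quotient.mk 1 : _ ⧸ N) ≠ 0
    rw [← Submodule.Quotient.mk_smul, Ne, Submodule.Quotient.mk_eq_zero, smul_eq_mul, mul_one]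
    exact hxN

end Pool.Agent.R928.PHL
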