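import Pool.Agent.R641.PH.Stm

/-!
PH-T: a morphism of commutative Hopf algebras `f : A → B` with `B⁺ = f(A⁺) B` is surjective.
-/

set_option autoImplicit false

namespace Pool.Agent.R928.PHT

open TensorProduct

universe u

/-- Denominators at an associated prime. -/
lemma denom {A₀ B : Type u} [CommRing A₀] [IsNoetherianRing A₀] [CommRing B] [Algebra A₀ B]
    (c : A₀) (hc : algebraMap A₀ B c ≠ 0) (x : B)
    (hx : x ⊗ₜ[A₀] (1 : B) = (1 : B) ⊗ₜ[A₀] x) :
    ∃ t a : A₀, algebraMap A₀ B (t * c) ≠ 0 ∧ algebraMap A₀ B (t * c) * x = algebraMap A₀ B a := by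
  classical
  set M : Submodule A₀ B := Submodule.span A₀ {algebraMap A₀ B c} with hM
  have hnt : Nontrivial M := by
    refine ⟨⟨⟨algebraMap A₀ B c, Submodule.mem_span_singleton_self _⟩, 0, ?_⟩⟩
    intro h
    exact hc (congrArg Subtype.val h)
  obtain ⟨p, hp⟩ := associatedPrimes.nonempty A₀ M
  rw [AssociatedPrimes.mem_iff, isAssociatedPrime_iff] at hp
  obtain ⟨hprime, ⟨y, hy⟩, hpy⟩ := hp
  rw [hM, Submodule.mem_span_singleton] at hy
  obtain ⟨t₀, ht₀⟩ := hy
  have hs : y = algebraMap A₀ B (t₀ * c) := by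
    rw [← ht₀, map_mul, Algebra.smul_def]
  have hmem : ∀ t : A₀, t ∈ p ↔ algebraMap A₀ B t * y = 0 := by
    intro t
    rw [hpy, Submodule.mem_colon_singleton, Submodule.mem_bot, ← Algebra.smul_def]
    exact Subtype.ext_iff
  -- the module of elements killed by `p`
  set N : Submodule A₀ B := Submodule.torsionBySet A₀ B (p : Set A₀) with hN
  have hyN : ∀ z : B, y * z ∈ N := by
    intro z
    rw [hN, Submodule.mem_torsionBySet_iff]
    rintro ⟨a, ha⟩
    change a • (y * z) = 0
    rw [Algebra.smul_def, ← mul_assoc, (hmem a).1 ha, zero_mul]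
  let D := A₀ ⧸ p
  let κ := FractionRing D
  let R := LocalizedModule (nonZeroDivisors D) N
  let ι : B →+ R :=
    { toFun := fun z => LocalizedModule.mkLinearMap (nonZeroDivisors D) N ⟨y * z, hyN z⟩
      map_zero' := by
        rw [show (⟨y * 0, hyN 0⟩ : N) = 0 from Subtype.ext (mul_zero _), map_zero]
      map_add' := by
        intro z w
        rw [← map_add]
        congr 1
        exact Subtype.ext (mul_add _ _ _) }
  have hι : ∀ z, ι z = LocalizedModule.mkLinearMap (nonZeroDivisors D) N ⟨y * z, hyN z⟩ :=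
    fun z => rfl
  have hιs : ∀ (a : A₀) (z : B), ι (a • z) = (algebraMap D κ (Ideal.Quotient.mk p a)) • ι z := by
    intro a z
    rw [hι, hι, algebraMap_smul, ← map_smul]
    congr 1
    apply Subtype.ext
    have h1 := Submodule.torsionBySet.mk_smul p a ⟨y * z, hyN z⟩
    have h2 := congrArg Subtype.val h1
    refine Eq.trans ?_ h2.symm
    change y * (a • z) = a • (y * z)
    rw [mul_smul_comm]
  have hι0 : ∀ z, ι z = 0 → ∃ t : A₀, t ∉ p ∧ algebraMap A₀ B t * (y * z) = 0 := by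
    intro z hz
    rw [hι, IsLocalizedModule.eq_zero_iff (nonZeroDivisors D)] at hz
    obtain ⟨⟨d, hd⟩, hdz⟩ := hz
    obtain ⟨t, rfl⟩ := Ideal.Quotient.mk_surjective d
    refine ⟨t, ?_, ?_⟩
    · intro ht
      exact nonZeroDivisors.ne_zero hd (Ideal.Quotient.eq_zero_iff_mem.2 ht)
    · have h1 := Submodule.torsionBySet.mk_smul p t ⟨y * z, hyN z⟩
      have h2 := congrArg Subtype.val (h1.symm.trans hdz)
      have h3 : t • (y * z) = 0 := h2
      rw [← Algebra.smul_def]
      exact h3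
  have hι1 : ι 1 ≠ 0 := by
    intro h
    obtain ⟨t, ht, ht'⟩ := hι0 1 h
    rw [mul_one] at ht'
    exact ht ((hmem t).2 ht')
  obtain ⟨φ, hφ⟩ : ∃ φ : Module.Dual κ R, φ (ι 1) ≠ 0 := by
    by_contra hcon
    push Not at hcon
    exact hι1 ((Module.forall_dual_apply_eq_zero_iff κ _).1 hcon)
  -- the bilinear map
  let Θ : B ⊗[A₀] B →+ R := TensorProduct.liftAddHom
    { toFun := fun z =>
        { toFun := fun w => φ (ι z) • ι w
          map_zero' := by rw [map_zero, smul_zero]
          map_add' := fun w w' => by rw [map_add, smul_add] }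
      map_zero' := by
        ext w
        simp
      map_add' := fun z z' => by
        ext w
        simp [add_smul] }
    (by
      intro a z w
      change φ (ι (a • z)) • ι w = φ (ι z) • ι (a • w)
      rw [hιs, hιs, map_smul, smul_smul, smul_eq_mul, mul_comm])
  have h1 : φ (ι x) • ι 1 = φ (ι 1) • ι x := congrArg Θ hx
  have h2 : ι x = (φ (ι 1))⁻¹ • φ (ι x) • ι 1 := by
    rw [h1, smul_smul, inv_mul_cancel₀ hφ, one_smul]
  rw [smul_smul] at h2
  obtain ⟨d1, d2, hd2, hd⟩ := IsFractionRing.div_surjective D ((φ (ι 1))⁻¹ * φ (ι x))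
  obtain ⟨a, rfl⟩ := Ideal.Quotient.mk_surjective d1
  obtain ⟨t, rfl⟩ := Ideal.Quotient.mk_surjective d2
  have ht : t ∉ p := fun ht => nonZeroDivisors.ne_zero hd2 (Ideal.Quotient.eq_zero_iff_mem.2 ht)
  have hne : algebraMap D κ (Ideal.Quotient.mk p t) ≠ 0 := by
    intro h
    exact nonZeroDivisors.ne_zero hd2 ((IsFractionRing.injective D κ) (by rw [h, map_zero]))
  have h3 : ι (t • x - a • (1 : B)) = 0 := by
    rw [map_sub, hιs, hιs, h2, ← hd, smul_smul, mul_div_cancel₀ _ hne, sub_self]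
  obtain ⟨t', ht', h4⟩ := hι0 _ h3
  refine ⟨t' * t * t₀, t' * a * (t₀ * c), ?_, ?_⟩
  · intro h5
    have h6 : t' * t ∈ p := by
      rw [hmem, hs, ← map_mul, ← h5]
      congr 1
      ring
    rcases hprime.mem_or_mem h6 with h7 | h7
    · exact ht' h7
    · exact ht h7
  · rw [hs, Algebra.smul_def, Algebra.smul_def, mul_one] at h4
    simp only [map_mul] at h4 ⊢
    linear_combination h4

section denominators

variable {k B : Type u} [Field k] [CommRing B] [Algebra k B] (A₁ : Subalgebra k B)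

/-- The inclusion of `A₁` is an epimorphism, in terms of the tensor product. -/
def Epi : Prop := ∀ x : B, x ⊗ₜ[k] (1 : B) - (1 : B) ⊗ₜ[k] x ∈
  Ideal.span ((fun a : B => a ⊗ₜ[k] (1 : B) - (1 : B) ⊗ₜ[k] a) '' (A₁ : Set B))

variable {A₁}

lemma denom1 (h : Epi A₁) (c : B) (hc : c ∈ A₁) (hc0 : c ≠ 0) (x : B) :
    ∃ t ∈ A₁, t * c ≠ 0 ∧ t * c * x ∈ A₁ := by
  classical
  obtain ⟨T, hT, hxT⟩ := Submodule.mem_span_finite_of_mem_span (h x)
  obtain ⟨F, hF, rfl⟩ := Finset.subset_set_image_iff.1 hT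
  set A₀ : Subalgebra k B := Algebra.adjoin k ((insert c F : Finset B) : Set B) with hA₀
  have hA : A₀ ≤ A₁ := by
    refine Algebra.adjoin_le ?_
    intro y hy
    rw [Finset.coe_insert, Set.mem_insert_iff] at hy
    rcases hy with rfl | hy
    · exact hc
    · exact hF hy
  have hfg : A₀.FG := Subalgebra.fg_adjoin_finset _
  have hft : Algebra.FiniteType k A₀ := (Subalgebra.fg_iff_finiteType A₀).1 hfg
  have hnoeth : IsNoetherianRing A₀ := Algebra.FiniteType.isNoetherianRing k A₀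
  have hcA : c ∈ A₀ := Algebra.subset_adjoin (by simp)
  let g₁ : B →ₐ[k] B ⊗[A₀] B := Algebra.TensorProduct.includeLeft
  let g₂ : B →ₐ[k] B ⊗[A₀] B :=
    (Algebra.TensorProduct.includeRight : B →ₐ[A₀] B ⊗[A₀] B).restrictScalars k
  let ρ : B ⊗[k] B →ₐ[k] B ⊗[A₀] B := Algebra.TensorProduct.productMap g₁ g₂
  have hρ : ∀ y z : B, ρ (y ⊗ₜ z) = y ⊗ₜ z := by
    intro y z
    change g₁ y * g₂ z = _
    change (y ⊗ₜ[A₀] (1 : B)) * ((1 : B) ⊗ₜ[A₀] z) = _
    rw [Algebra.TensorProduct.tmul_mul_tmul, mul_one, one_mul]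
  have hker : ∀ z ∈ Ideal.span ((fun a : B => a ⊗ₜ[k] (1 : B) - (1 : B) ⊗ₜ[k] a) ''
      ((F : Finset B) : Set B)), ρ z = 0 := by
    intro z hz
    have : Ideal.span ((fun a : B => a ⊗ₜ[k] (1 : B) - (1 : B) ⊗ₜ[k] a) ''
        ((F : Finset B) : Set B)) ≤ RingHom.ker ρ := by
      rw [Ideal.span_le]
      rintro _ ⟨a, ha, rfl⟩
      have haA : a ∈ A₀ := Algebra.subset_adjoin (by
        rw [Finset.coe_insert]
        exact Set.mem_insert_of_mem _ ha)
      rw [SetLike.mem_coe, RingHom.mem_ker]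
      rw [map_sub, hρ, hρ, sub_eq_zero]
      have h1 := TensorProduct.smul_tmul (R := A₀) (⟨a, haA⟩ : A₀) (1 : B) (1 : B)
      rw [show (⟨a, haA⟩ : A₀) • (1 : B) = a from mul_one a] at h1
      exact h1
    exact this hz
  have hx : x ⊗ₜ[A₀] (1 : B) = (1 : B) ⊗ₜ[A₀] x := by
    have h1 := hker _ (by
      rw [Finset.coe_image] at hxT
      exact hxT)
    rw [map_sub, hρ, hρ, sub_eq_zero] at h1
    exact h1
  obtain ⟨t, a, h1, h2⟩ := denom (A₀ := A₀) ⟨c, hcA⟩ (by exact hc0) x hx
  refine ⟨t, hA t.2, h1, ?_⟩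
  have h3 : (t : B) * c * x = (a : B) := h2
  rw [h3]
  exact hA a.2

lemma denomF (h : Epi A₁) [Nontrivial B] (X : Finset B) :
    ∃ c ∈ A₁, c ≠ 0 ∧ ∀ x ∈ X, c * x ∈ A₁ := by
  classical
  induction X using Finset.induction_on with
  | empty => exact ⟨1, one_mem _, one_ne_zero, by simp⟩
  | insert x X _ ih =>
    obtain ⟨c, hc, hc0, hX⟩ := ih
    obtain ⟨t, ht, htc, htx⟩ := denom1 h c hc hc0 x
    refine ⟨t * c, mul_mem ht hc, htc, ?_⟩
    intro y hy
    rw [Finset.mem_insert] at hy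
    rcases hy with rfl | hy
    · exact htx
    · rw [mul_assoc]
      exact mul_mem ht (hX y hy)

end denominators

section hopf

open WithConv

variable {k A B : Type u} [Field k] [CommRing A] [CommRing B] [HopfAlgebra k A] [HopfAlgebra k B]

lemma rinv {C : Type u} [CommRing C] [Algebra k C] (h : B →ₐ[k] C) :
    toConv h * toConv (h.comp (HopfAlgebra.antipodeAlgHom k B)) = 1 := by
  have h1 := AlgHom.comp_convMul_distrib h (toConv (AlgHom.id k B))
    (toConv (HopfAlgebra.antipodeAlgHom k B))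
  have h2 : toConv (AlgHom.id k B) * toConv (HopfAlgebra.antipodeAlgHom k B) = 1 := by
    have := mul_inv_cancel (toConv (AlgHom.id k B) : WithConv (B →ₐ[k] B))
    exact this
  rw [h2] at h1
  have h3 : h.comp (1 : WithConv (B →ₐ[k] B)).ofConv = (1 : WithConv (B →ₐ[k] C)).ofConv := by
    ext b
    change h (algebraMap k B (Coalgebra.counit b)) = algebraMap k C (Coalgebra.counit b)
    exact h.commutes _
  rw [h3] at h1
  exact (WithConv.ofConv_injective h1).symm

lemma linv {C : Type u} [CommRing C] [Algebra k C] (h : B →ₐ[k] C) :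
    toConv (h.comp (HopfAlgebra.antipodeAlgHom k B)) * toConv h = 1 := by
  have h1 := AlgHom.comp_convMul_distrib h (toConv (HopfAlgebra.antipodeAlgHom k B))
    (toConv (AlgHom.id k B))
  rw [AlgHom.antipode_id_cancel] at h1
  have h3 : h.comp (1 : WithConv (B →ₐ[k] B)).ofConv = (1 : WithConv (B →ₐ[k] C)).ofConv := by
    ext b
    change h (algebraMap k B (Coalgebra.counit b)) = algebraMap k C (Coalgebra.counit b)
    exact h.commutes _
  rw [h3] at h1
  exact (WithConv.ofConv_injective h1).symm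

/-- Algebra maps which agree on the image of `f` are equal. -/
lemma eq_of_comp_eq (f : A →ₐc[k] B)
    (hf : ∀ b : B, Coalgebra.counit (R := k) b = 0 →
      b ∈ Ideal.span (f '' {a : A | Coalgebra.counit (R := k) a = 0}))
    {C : Type u} [CommRing C] [Algebra k C] (g₁ g₂ : B →ₐ[k] C)
    (h : g₁.comp (f : A →ₐ[k] B) = g₂.comp (f : A →ₐ[k] B)) : g₁ = g₂ := by
  set S := HopfAlgebra.antipodeAlgHom k B with hS
  set v : WithConv (B →ₐ[k] C) := toConv g₁ * toConv (g₂.comp S) with hv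
  have h1 : v.ofConv.comp (f : A →ₐ[k] B) =
      (1 : WithConv (B →ₐ[k] C)).ofConv.comp (f : A →ₐ[k] B) := by
    rw [hv, AlgHom.convMul_comp_bialgHom_distrib, ofConv_toConv, h, ← rinv g₂,
      AlgHom.convMul_comp_bialgHom_distrib]
  have h2 : ∀ b : B, Coalgebra.counit (R := k) b = 0 → v.ofConv b = 0 := by
    intro b hb
    have h3 : Ideal.span (f '' {a : A | Coalgebra.counit (R := k) a = 0}) ≤
        RingHom.ker v.ofConv := by
      rw [Ideal.span_le]
      rintro _ ⟨a, ha, rfl⟩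
      rw [SetLike.mem_coe, RingHom.mem_ker]
      have h4 := DFunLike.congr_fun h1 a
      change v.ofConv (f a) = algebraMap k C (Coalgebra.counit (R := k) (f a)) at h4
      rw [h4]
      have h5 : Coalgebra.counit (R := k) (f a) = Coalgebra.counit (R := k) a :=
        CoalgHomClass.counit_comp_apply f a
      rw [h5, ha, map_zero]
    exact h3 (hf b hb)
  have h3 : v = 1 := by
    apply WithConv.ofConv_injective
    ext b
    change v.ofConv b = algebraMap k C (Coalgebra.counit (R := k) b)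
    have h4 := h2 (b - algebraMap k B (Coalgebra.counit (R := k) b)) (by
      rw [map_sub, Bialgebra.counit_algebraMap, sub_self])
    rw [map_sub, AlgHom.commutes, sub_eq_zero] at h4
    exact h4
  have h4 : toConv g₁ = toConv g₂ := by
    calc toConv g₁ = toConv g₁ * (toConv (g₂.comp S) * toConv g₂) := by rw [linv, mul_one]
      _ = v * toConv g₂ := by rw [← mul_assoc]
      _ = toConv g₂ := by rw [h3, one_mul]
  exact WithConv.toConv_injective h4

lemma epi_range (f : A →ₐc[k] B)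
    (hf : ∀ b : B, Coalgebra.counit (R := k) b = 0 →
      b ∈ Ideal.span (f '' {a : A | Coalgebra.counit (R := k) a = 0})) :
    Epi (f : A →ₐ[k] B).range := by
  intro x
  set I : Ideal (B ⊗[k] B) := Ideal.span ((fun a : B => a ⊗ₜ[k] (1 : B) - (1 : B) ⊗ₜ[k] a) ''
    ((f : A →ₐ[k] B).range : Set B)) with hI
  have h := eq_of_comp_eq f hf
    ((Ideal.Quotient.mkₐ k I).comp (Algebra.TensorProduct.includeLeft : B →ₐ[k] B ⊗[k] B))
    ((Ideal.Quotient.mkₐ k I).comp (Algebra.TensorProduct.includeRight : B →ₐ[k] B ⊗[k] B)) (by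
      ext a
      change Ideal.Quotient.mk I (f a ⊗ₜ[k] (1 : B)) = Ideal.Quotient.mk I ((1 : B) ⊗ₜ[k] f a)
      rw [Ideal.Quotient.eq]
      exact Ideal.subset_span ⟨f a, ⟨a, rfl⟩, rfl⟩)
  have h1 := DFunLike.congr_fun h x
  change Ideal.Quotient.mk I (x ⊗ₜ[k] (1 : B)) = Ideal.Quotient.mk I ((1 : B) ⊗ₜ[k] x) at h1
  rw [Ideal.Quotient.eq] at h1
  exact h1

lemma antipode_mem (f : A →ₐc[k] B) (x : B) (hx : x ∈ (f : A →ₐ[k] B).range) :
    HopfAlgebra.antipode k x ∈ (f : A →ₐ[k] B).range := by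
  obtain ⟨a, rfl⟩ := hx
  have h1 : toConv ((f : A →ₐ[k] B).comp (HopfAlgebra.antipodeAlgHom k A)) *
      toConv (f : A →ₐ[k] B) = 1 := linv (f : A →ₐ[k] B)
  have h2 : toConv (f : A →ₐ[k] B) *
      toConv (((AlgHom.id k B).comp (HopfAlgebra.antipodeAlgHom k B)).comp (f : A →ₐ[k] B)) = 1 := by
    have h3 := AlgHom.convMul_comp_bialgHom_distrib (toConv (AlgHom.id k B))
      (toConv ((AlgHom.id k B).comp (HopfAlgebra.antipodeAlgHom k B))) f
    rw [rinv] at h3
    have h4 : (1 : WithConv (B →ₐ[k] B)).ofConv.comp (f : A →ₐ[k] B) =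
        (1 : WithConv (A →ₐ[k] B)).ofConv := by
      ext a
      change algebraMap k B (Coalgebra.counit (R := k) (f a)) =
        algebraMap k B (Coalgebra.counit (R := k) a)
      congr 1
      exact CoalgHomClass.counit_comp_apply f a
    rw [h4] at h3
    exact (WithConv.ofConv_injective h3).symm
  have h3 := left_inv_eq_right_inv h1 h2
  have h4 := DFunLike.congr_fun (WithConv.toConv_injective h3) a
  exact ⟨HopfAlgebra.antipode k a, h4⟩

/-- The partial evaluation `x ⊗ y ↦ ψ(y) x`. -/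
noncomputable def ev (ψ : B →ₗ[k] k) : B ⊗[k] B →ₗ[k] B :=
  (TensorProduct.rid k B).toLinearMap ∘ₗ (LinearMap.lTensor B ψ)

lemma ev_tmul (ψ : B →ₗ[k] k) (x y : B) : ev ψ (x ⊗ₜ y) = ψ y • x := by
  simp [ev]

lemma ev_mul (ψ : B →ₗ[k] k) (z : B ⊗[k] B) (b : B) :
    ev ψ (z * (b ⊗ₜ[k] (1 : B))) = ev ψ z * b := by
  induction z with
  | zero => simp
  | tmul x y =>
    rw [Algebra.TensorProduct.tmul_mul_tmul, mul_one, ev_tmul, ev_tmul, smul_mul_assoc]
  | add x y hx hy => rw [add_mul, map_add, map_add, add_mul, hx, hy]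

lemma ev_mem (f : A →ₐc[k] B) (ψ : B →ₗ[k] k) (z : A ⊗[k] A) (y : B) :
    ev ψ (TensorProduct.map (f : A →ₗ[k] B) (f : A →ₗ[k] B) z * ((1 : B) ⊗ₜ[k] y)) ∈
      (f : A →ₐ[k] B).range := by
  induction z with
  | zero => simp
  | tmul a a' =>
    rw [TensorProduct.map_tmul, Algebra.TensorProduct.tmul_mul_tmul, mul_one, ev_tmul]
    have h1 : (f : A →ₗ[k] B) a ∈ (f : A →ₐ[k] B).range := ⟨a, rfl⟩
    exact Subalgebra.smul_mem _ h1 _
  | add x y hx hy =>
    rw [map_add, add_mul, map_add]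
    exact add_mem hx hy

lemma comul_f (f : A →ₐc[k] B) (a : A) : Coalgebra.comul (R := k) (f a) =
    TensorProduct.map (f : A →ₗ[k] B) (f : A →ₗ[k] B) (Coalgebra.comul (R := k) a) :=
  (CoalgHomClass.map_comp_comul_apply f a).symm

/-- `b ⊗ 1 = ∑ Δ(b₁) (1 ⊗ S b₂)`. -/
lemma untwist (b : B) : b ⊗ₜ[k] (1 : B) =
    ∑ i ∈ (Coalgebra.Repr.arbitrary k b).index,
      Coalgebra.comul (R := k) ((Coalgebra.Repr.arbitrary k b).left i) *
        ((1 : B) ⊗ₜ[k] HopfAlgebra.antipode k ((Coalgebra.Repr.arbitrary k b).right i)) := by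
  set i₁ : B →ₐ[k] B ⊗[k] B := Algebra.TensorProduct.includeLeft with hi₁
  set i₂ : B →ₐ[k] B ⊗[k] B := Algebra.TensorProduct.includeRight with hi₂
  have h1 : toConv i₁ * toConv i₂ = toConv (Bialgebra.comulAlgHom k B) := by
    apply WithConv.ofConv_injective
    ext c
    have h2 := AlgHom.convMul_apply (toConv i₁) (toConv i₂) c
    refine Eq.trans h2 ?_
    have h3 : Algebra.TensorProduct.lift i₁ i₂ (fun _ _ => .all _ _) =
        AlgHom.id k (B ⊗[k] B) := by
      ext <;> simp [hi₁, hi₂]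
    change Algebra.TensorProduct.lift i₁ i₂ (fun _ _ => .all _ _) _ = _
    rw [h3]
    rfl
  have h2 : toConv (Bialgebra.comulAlgHom k B) *
      toConv (i₂.comp (HopfAlgebra.antipodeAlgHom k B)) = toConv i₁ := by
    rw [← h1, mul_assoc, rinv, mul_one]
  have h3 := DFunLike.congr_fun (congrArg WithConv.ofConv h2) b
  have h4 := AlgHom.convMul_apply (toConv (Bialgebra.comulAlgHom k B))
    (toConv (i₂.comp (HopfAlgebra.antipodeAlgHom k B))) b
  have h5 : i₁ b = Algebra.TensorProduct.lift (Bialgebra.comulAlgHom k B)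
      (i₂.comp (HopfAlgebra.antipodeAlgHom k B)) (fun _ _ => .all _ _)
        (Coalgebra.comul (R := k) b) := h3.symm.trans h4
  change i₁ b = _
  rw [h5]
  conv_lhs => rw [← (Coalgebra.Repr.arbitrary k b).eq]
  rw [map_sum]
  refine Finset.sum_congr rfl fun i _ => ?_
  rw [Algebra.TensorProduct.lift_tmul]
  rfl

theorem t_T : R641.PH.S_T := by
  intro k A B _ _ _ _ _ f hf b
  classical
  have hepi := epi_range f hf
  have hnt : Nontrivial B := by
    refine ⟨⟨1, 0, fun h => ?_⟩⟩
    have h1 := congrArg (Coalgebra.counit (R := k)) h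
    rw [Bialgebra.counit_one, map_zero] at h1
    exact one_ne_zero h1
  set A₁ := (f : A →ₐ[k] B).range with hA₁
  suffices hb : b ∈ A₁ by
    obtain ⟨a, ha⟩ := hb
    exact ⟨a, ha⟩
  set 𝓡 := Coalgebra.Repr.arbitrary k b with h𝓡
  obtain ⟨c, hc, hc0, hX⟩ := denomF hepi (𝓡.index.image 𝓡.left)
  -- the functionals
  have hT : ∀ ψ : B →ₗ[k] k, ev ψ (Coalgebra.comul (R := k) c) * b ∈ A₁ := by
    intro ψ
    rw [← ev_mul, untwist, Finset.mul_sum, map_sum]
    refine sum_mem fun i hi => ?_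
    rw [← mul_assoc, ← Bialgebra.comul_mul]
    obtain ⟨α, hα⟩ := hX _ (Finset.mem_image_of_mem _ hi)
    have hα' : f α = c * 𝓡.left i := hα
    rw [← hα', comul_f]
    exact ev_mem f ψ _ _
  -- a basis of the image
  set W : Submodule k B := Subalgebra.toSubmodule A₁ with hW
  set β := Module.Basis.ofVectorSpace k W with hβ
  obtain ⟨γ, hγ⟩ := hc
  have hγ' : f γ = c := hγ
  let f' : A →ₗ[k] W := LinearMap.codRestrict W (f : A →ₗ[k] B) (fun a => ⟨a, rfl⟩)
  have hf' : W.subtype ∘ₗ f' = (f : A →ₗ[k] B) := rfl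
  obtain ⟨zz, hzz⟩ := TensorProduct.eq_repr_basis_right β
    (TensorProduct.map (f : A →ₗ[k] B) f' (Coalgebra.comul (R := k) γ))
  have hΔ : Coalgebra.comul (R := k) c = zz.sum fun j m => m ⊗ₜ[k] (β j : B) := by
    rw [← hγ', comul_f]
    have h1 : TensorProduct.map (f : A →ₗ[k] B) (f : A →ₗ[k] B) =
        (LinearMap.lTensor B W.subtype) ∘ₗ (TensorProduct.map (f : A →ₗ[k] B) f') := by
      rw [LinearMap.lTensor, ← TensorProduct.map_comp, hf', LinearMap.id_comp]
    rw [h1, LinearMap.comp_apply, ← hzz, map_finsuppSum]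
    rfl
  have hz : ∀ j, zz j * b ∈ A₁ := by
    intro j
    obtain ⟨ψ, hψ⟩ := LinearMap.exists_extend (β.coord j)
    have h1 := hT ψ
    have h2 : ev ψ (Coalgebra.comul (R := k) c) = zz j := by
      rw [hΔ, map_finsuppSum]
      simp only [ev_tmul]
      have h3 : ∀ i, ψ (β i : B) = if j = i then 1 else 0 := by
        intro i
        have h4 := LinearMap.congr_fun hψ (β i)
        rw [LinearMap.comp_apply, Submodule.subtype_apply, Module.Basis.coord_apply,
          Module.Basis.repr_self, Finsupp.single_apply] at h4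
        rw [h4]
        simp only [eq_comm]
      rw [Finsupp.sum]
      simp only [h3, ite_smul, one_smul, zero_smul]
      rw [Finset.sum_ite_eq]
      split_ifs with h5
      · rfl
      · exact (Finsupp.notMem_support_iff.1 h5).symm
    rw [h2] at h1
    exact h1
  obtain ⟨φ, hφ⟩ : ∃ φ : Module.Dual k B, φ c ≠ 0 := by
    by_contra hcon
    push Not at hcon
    exact hc0 ((Module.forall_dual_apply_eq_zero_iff k c).1 hcon)
  set φ' : B →ₗ[k] B := (Algebra.linearMap k B) ∘ₗ φ with hφ'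
  set σ : WithConv (B →ₗ[k] B) := toConv (HopfAlgebra.antipode k (A := B)) * toConv φ' with hσ
  have hidσ : toConv (LinearMap.id : B →ₗ[k] B) * σ = toConv φ' := by
    rw [hσ, ← mul_assoc, LinearMap.id_mul_antipode, one_mul]
  have hσmem : ∀ j, σ.ofConv (β j : B) ∈ A₁ := by
    intro j
    obtain ⟨δ, hδ⟩ := (β j).2
    have hδ' : f δ = (β j : B) := hδ
    rw [← hδ']
    have h1 : σ.ofConv (f δ) = LinearMap.mul' k B (TensorProduct.map
        (HopfAlgebra.antipode k (A := B)) φ' (Coalgebra.comul (R := k) (f δ))) := rfl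
    rw [h1, comul_f]
    generalize (Coalgebra.comul (R := k) δ) = w
    induction w with
    | zero => simp
    | tmul a a' =>
      rw [TensorProduct.map_tmul, TensorProduct.map_tmul, LinearMap.mul'_apply]
      refine mul_mem (antipode_mem f _ ⟨a, rfl⟩) ?_
      exact Subalgebra.algebraMap_mem _ _
    | add x y hx hy =>
      rw [map_add, map_add, map_add]
      exact add_mem hx hy
  have hfin : φ c • b = zz.sum fun j m => (m * b) * σ.ofConv (β j : B) := by
    have h1 : φ' c = LinearMap.mul' k B (TensorProduct.map LinearMap.id σ.ofConv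
        (Coalgebra.comul (R := k) c)) := by
      have h2 := LinearMap.congr_fun (congrArg WithConv.ofConv hidσ) c
      exact h2.symm
    have h3 : φ c • b = φ' c * b := by
      rw [hφ', LinearMap.comp_apply, Algebra.linearMap_apply, Algebra.smul_def]
    rw [h3, h1, hΔ, map_finsuppSum, map_finsuppSum, Finsupp.sum_mul]
    refine Finset.sum_congr rfl fun j _ => ?_
    beta_reduce
    rw [TensorProduct.map_tmul, LinearMap.mul'_apply, LinearMap.id_apply]
    ring
  have hmem : φ c • b ∈ A₁ := by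
    rw [hfin]
    exact sum_mem fun j _ => mul_mem (hz j) (hσmem j)
  have := Subalgebra.smul_mem A₁ hmem (φ c)⁻¹
  rwa [smul_smul, inv_mul_cancel₀ hφ, one_smul] at this

end hopf

end Pool.Agent.R928.PHT
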