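import Pool.Agent.R537.TE.Stm

/-!
# Pieces TE-BAS and TE-INT
-/

set_option autoImplicit false

namespace Pool.Agent.R537.TE

namespace BAS

lemma vec_zero {m : ℕ} (t : Fin m → ℝ) : vec t 0 = -∑ i, t i := rfl

lemma vec_succ {m : ℕ} (t : Fin m → ℝ) (i : Fin m) : vec t i.succ = t i := rfl

lemma ones_apply (m : ℕ) (i : Fin (m + 1)) : ones m i = 1 := rfl

/-- the inverse map -/
noncomputable def inv {m : ℕ} (t : Fin (m + 1) → ℝ) : E (m + 1) :=
  vec (fun i => t i.succ) + t 0 • ones m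

lemma inv_zero {m : ℕ} (t : Fin (m + 1) → ℝ) : inv t 0 = -(∑ i : Fin m, t i.succ) + t 0 := by
  unfold inv
  rw [PiLp.add_apply, PiLp.smul_apply, vec_zero, ones_apply, smul_eq_mul, mul_one]

lemma inv_succ {m : ℕ} (t : Fin (m + 1) → ℝ) (i : Fin m) : inv t i.succ = t i.succ + t 0 := by
  unfold inv
  rw [PiLp.add_apply, PiLp.smul_apply, vec_succ, ones_apply, smul_eq_mul, mul_one]

lemma mean_inv {m : ℕ} (t : Fin (m + 1) → ℝ) : mean (inv t) = t 0 := by
  unfold mean
  rw [Fin.sum_univ_succ, inv_zero]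
  simp only [inv_succ]
  rw [Finset.sum_add_distrib, Finset.sum_const, Finset.card_univ, Fintype.card_fin, nsmul_eq_mul]
  have : (m : ℝ) + 1 ≠ 0 := by positivity
  field_simp
  ring

/-- the linear equivalence -/
noncomputable def equiv (m : ℕ) : E (m + 1) ≃ₗ[ℝ] (Fin (m + 1) → ℝ) where
  toFun x := Fin.cons (mean x) (tc x)
  map_add' x y := by
    have hm : mean (x + y) = mean x + mean y := by
      unfold mean
      simp only [PiLp.add_apply, Finset.sum_add_distrib]
      ring
    funext i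
    refine Fin.cases ?_ (fun j => ?_) i
    · simp only [Fin.cons_zero, Pi.add_apply, hm]
    · simp only [Fin.cons_succ, Pi.add_apply, tc, hm, PiLp.add_apply]
      ring
  map_smul' c x := by
    have hm : mean (c • x) = c * mean x := by
      unfold mean
      simp only [PiLp.smul_apply, smul_eq_mul, ← Finset.mul_sum]
      ring
    funext i
    refine Fin.cases ?_ (fun j => ?_) i
    · simp only [Fin.cons_zero, Pi.smul_apply, hm, smul_eq_mul, RingHom.id_apply]
    · simp only [Fin.cons_succ, Pi.smul_apply, tc, hm, PiLp.smul_apply, smul_eq_mul,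
        RingHom.id_apply]
      ring
  invFun := inv
  left_inv x := by
    have hm : (m : ℝ) + 1 ≠ 0 := by positivity
    have hs : x 0 + ∑ i : Fin m, x i.succ = (m + 1) * mean x := by
      unfold mean
      rw [← Fin.sum_univ_succ, mul_div_cancel₀ _ hm]
    ext i
    refine Fin.cases ?_ (fun j => ?_) i
    · rw [inv_zero]
      simp only [Fin.cons_zero, Fin.cons_succ, tc]
      rw [Finset.sum_sub_distrib, Finset.sum_const, Finset.card_univ, Fintype.card_fin,
        nsmul_eq_mul]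
      linarith
    · rw [inv_succ]
      simp only [Fin.cons_zero, Fin.cons_succ, tc]
      ring
  right_inv t := by
    funext i
    refine Fin.cases ?_ (fun j => ?_) i
    · simp only [Fin.cons_zero, mean_inv]
    · simp only [Fin.cons_succ, tc, mean_inv, inv_succ]
      ring

lemma sum_basis (m : ℕ) (t : Fin (m + 1) → ℝ) :
    ∑ i, t i • (Module.Basis.ofEquivFun (equiv m)) i = inv t := by
  rw [← Module.Basis.equivFun_symm_apply, Module.Basis.equivFun_ofEquivFun]
  rfl

end BAS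

theorem t_BAS : S_BAS := by
  intro m
  refine ⟨Module.Basis.ofEquivFun (BAS.equiv m), ?_⟩
  ext v
  constructor
  · rintro ⟨k, rfl⟩
    rw [BAS.sum_basis m (fun i => (k i : ℝ))]
    refine ⟨Fin.cons (k 0 - ∑ i : Fin m, k i.succ) (fun i => k i.succ + k 0), ?_, ?_⟩
    · intro i
      refine Fin.cases ?_ (fun j => ?_) i
      · rw [BAS.inv_zero, Fin.cons_zero]
        push_cast
        ring
      · rw [BAS.inv_succ, Fin.cons_succ]
        push_cast
        ring
    · refine ⟨k 0, ?_⟩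
      rw [Fin.sum_univ_succ, Fin.cons_zero]
      simp only [Fin.cons_succ]
      rw [Finset.sum_add_distrib, Finset.sum_const, Finset.card_univ, Fintype.card_fin,
        nsmul_eq_mul]
      ring
  · rintro ⟨k, hk, c, hc⟩
    refine ⟨Fin.cons c (fun i => k i.succ - c), ?_⟩
    rw [BAS.sum_basis m (fun i => (((Fin.cons c (fun i => k i.succ - c) : Fin (m + 1) → ℤ) i : ℤ) : ℝ))]
    rw [Fin.sum_univ_succ] at hc
    ext i
    refine Fin.cases ?_ (fun j => ?_) i
    · rw [BAS.inv_zero, hk]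
      simp only [Fin.cons_zero, Fin.cons_succ]
      push_cast
      rw [Finset.sum_sub_distrib, Finset.sum_const, Finset.card_univ, Fintype.card_fin,
        nsmul_eq_mul]
      have hc' : (k 0 : ℝ) + ∑ i : Fin m, (k i.succ : ℝ) = (m + 1) * c := by exact_mod_cast hc
      linarith
    · rw [BAS.inv_succ, hk]
      simp only [Fin.cons_zero, Fin.cons_succ]
      push_cast
      ring

theorem t_INT : S_INT := by
  intro m x₀ h0 h1
  rw [mem_interior]
  refine ⟨Metric.ball (x₀ • ones m) ((1 - 2 * x₀) / 2), ?_, Metric.isOpen_ball,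
    Metric.mem_ball_self (by linarith)⟩
  intro x hx v hv
  rw [Metric.mem_ball, dist_eq_norm] at hx
  obtain ⟨k, hk, -⟩ := hv
  have hnorm : ‖v‖ ^ 2 = ((∑ i, (k i) ^ 2 : ℤ) : ℝ) := by
    rw [EuclideanSpace.norm_sq_eq]
    push_cast
    refine Finset.sum_congr rfl fun i _ => ?_
    rw [hk, Real.norm_eq_abs, sq_abs]
  have hinner : inner ℝ (x₀ • ones m) v = x₀ * ((∑ i, k i : ℤ) : ℝ) := by
    rw [real_inner_smul_left, PiLp.inner_apply]
    congr 1
    push_cast
    refine Finset.sum_congr rfl fun i _ => ?_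
    rw [BAS.ones_apply, hk]
    simp
  have hle : (∑ i, k i : ℤ) ≤ ∑ i, (k i) ^ 2 := by
    apply Finset.sum_le_sum
    intro i _
    rcases le_or_gt (k i) 0 with h | h
    · exact h.trans (sq_nonneg _)
    · nlinarith
  have hle' : ((∑ i, k i : ℤ) : ℝ) ≤ ‖v‖ ^ 2 := by
    rw [hnorm]; exact_mod_cast hle
  have hv1 : ‖v‖ ≤ ‖v‖ ^ 2 := by
    rcases eq_or_ne v 0 with h | h
    · rw [h]; simp
    · have h2 : 0 < ‖v‖ ^ 2 := by have := norm_pos_iff.2 h; positivity
      rw [hnorm] at h2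
      have h3 : (1 : ℤ) ≤ ∑ i, (k i) ^ 2 := by exact_mod_cast h2
      have h4 : (1 : ℝ) ≤ ‖v‖ ^ 2 := by rw [hnorm]; exact_mod_cast h3
      have h5 : 1 ≤ ‖v‖ := by
        by_contra hcon
        push Not at hcon
        nlinarith [norm_nonneg v]
      nlinarith
  have hcs : inner ℝ (x - x₀ • ones m) v ≤ ‖x - x₀ • ones m‖ * ‖v‖ := real_inner_le_norm _ _
  have hsplit : inner ℝ x v = inner ℝ (x - x₀ • ones m) v + inner ℝ (x₀ • ones m) v := by
    rw [← inner_add_left, sub_add_cancel]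
  have hmain : 2 * inner ℝ x v ≤ ‖v‖ ^ 2 := by
    rw [hsplit, hinner]
    have e1 : ‖x - x₀ • ones m‖ * ‖v‖ ≤ (1 - 2 * x₀) / 2 * ‖v‖ ^ 2 :=
      mul_le_mul hx.le hv1 (norm_nonneg _) (by linarith)
    have e2 : x₀ * ((∑ i, k i : ℤ) : ℝ) ≤ x₀ * ‖v‖ ^ 2 := mul_le_mul_of_nonneg_left hle' h0.le
    linarith
  have hsq : ‖x‖ ^ 2 ≤ ‖x - v‖ ^ 2 := by
    rw [norm_sub_sq_real]; linarith
  exact le_of_sq_le_sq hsq (norm_nonneg _)

end Pool.Agent.R537.TE
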